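import Pool.Agent.HSN.Kbs

/-!
# HSN/Kbk: existence of a pair

PROOF PLAN.  `KT.mk'`: lifts `A`, `B` of `a`, `b`: `A * A * B * B = T τ` or `-T τ`.  In the first case (as in the header of `KT`, `K = T τ`): `x z = 2 y - τ Y`, `y z = 2 x - τ X`, `x y z = x ^ 2 + y ^ 2`, `x y Z = x X + y Y`; so `τ (x X + y Y) = 0`, `x y Z = 0`, `Z = 0`;
`a b` is a translation `t β` (`trans_of_up`), `a (a b) a⁻¹ = t (τ - β)` (since `a (a b) b = t τ`, `b = a⁻¹ (a b)`); if `β ≠ 0` then `a` fixes infinity (`a t β a⁻¹` is a translation: lower left entry `-β X ^ 2`), so `a` and `b = a⁻¹ t β` are translations and commute; if `β = 0`,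
`b = a⁻¹`: they commute.
-/

set_option autoImplicit false

noncomputable section

namespace Pool.Agent.HSN

open Pool.Agent.HSK Pool.Agent.HSG Pool.Agent.HSC Matrix
open scoped MatrixGroups commutatorElement

variable {Γ : Subgroup PSL(2, ℂ)} {τ : ℂ} {A B : SL(2, ℂ)}

private theorem kbk_poly {a b c d e f g h τ : ℂ} (hA : a * d - b * c = 1) (hB : e * h - f * g = 1)
    (E : a * (a * e + b * g) + b * (c * e + d * g) + (c * (a * f + b * h) + d * (c * f + d * h)) = h - τ * g + e)
    (F : (a * e + b * g) * e + (a * f + b * h) * g + ((c * e + d * g) * f + (c * f + d * h) * h) = d + (a - c * τ))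
    (G : (c * (a * e + b * g) + d * (c * e + d * g)) * e + (c * (a * f + b * h) + d * (c * f + d * h)) * g = 0)
    (H : (a * (a * e + b * g) + b * (c * e + d * g)) * e + (a * (a * f + b * h) + b * (c * f + d * h)) * g +
      ((c * (a * e + b * g) + d * (c * e + d * g)) * f + (c * (a * f + b * h) + d * (c * f + d * h)) * h) = 2) :
    τ * ((a + d) * (e + h) * (c * e + d * g)) = 0 := by
  have h1 : (a + d) * (a * e + b * g + (c * f + d * h)) = 2 * (e + h) - τ * g := by
    linear_combination E + (e + h) * hA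
  have h2 : (e + h) * (a * e + b * g + (c * f + d * h)) = 2 * (a + d) - τ * c := by
    linear_combination F + (a + d) * hB
  have h3 : (a + d) * (e + h) * (c * e + d * g) = (a + d) * c + (e + h) * g := by
    linear_combination G + (a + d) * c * hB + (e + h) * g * hA
  have h4 : (a + d) * (e + h) * (a * e + b * g + (c * f + d * h)) = (a + d) ^ 2 + (e + h) ^ 2 := by
    linear_combination H + ((a + d) ^ 2 - 2) * hB + ((e + h) ^ 2 - 2 * (e * h - f * g)) * hA
  rw [h3]
  linear_combination (a + d) * h2 + (e + h) * h1 - 2 * h4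

private theorem kbk_entries {τ : ℂ} {A B : SL(2, ℂ)} (h : A * A * B * B = T τ) :
    τ * (A.1.trace * B.1.trace * (A * B).1 1 0) = 0 := by
  have hA := det_eq A
  have hB := det_eq B
  have hE : A * (A * B) = T τ * B⁻¹ := by
    rw [← h]
    group
  have hF : (A * B) * B = A⁻¹ * T τ := by
    rw [← h]
    group
  have hG : (A * (A * B)) * B = T τ := by
    rw [← h]
    group
  have m : ∀ (C D : SL(2, ℂ)) (i j : Fin 2), (C * D).1 i j = C.1 i 0 * D.1 0 j + C.1 i 1 * D.1 1 j := by
    intro C D i j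
    rw [Matrix.SpecialLinearGroup.coe_mul, Matrix.mul_apply, Fin.sum_univ_two]
  have i00 := congrArg (fun M => M 0 0) (inv_coe B)
  have i01 := congrArg (fun M => M 0 1) (inv_coe B)
  have i10 := congrArg (fun M => M 1 0) (inv_coe B)
  have i11 := congrArg (fun M => M 1 1) (inv_coe B)
  have j00 := congrArg (fun M => M 0 0) (inv_coe A)
  have j10 := congrArg (fun M => M 1 0) (inv_coe A)
  have j11 := congrArg (fun M => M 1 1) (inv_coe A)
  simp only [Matrix.of_apply, Matrix.cons_val', Matrix.cons_val_zero, Matrix.cons_val_one,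
    Matrix.cons_val_fin_one] at i00 i01 i10 i11 j00 j10 j11
  have E00 := congrArg (fun M : SL(2, ℂ) => M.1 0 0) hE
  have E11 := congrArg (fun M : SL(2, ℂ) => M.1 1 1) hE
  have F00 := congrArg (fun M : SL(2, ℂ) => M.1 0 0) hF
  have F11 := congrArg (fun M : SL(2, ℂ) => M.1 1 1) hF
  have G00 := congrArg (fun M : SL(2, ℂ) => M.1 0 0) hG
  have G10 := congrArg (fun M : SL(2, ℂ) => M.1 1 0) hG
  have G11 := congrArg (fun M : SL(2, ℂ) => M.1 1 1) hG
  simp only [m, nf_t00, nf_t01, nf_t10, nf_t11, i00, i01, i10, i11, j00, j10, j11] at E00 E11 F00 F11 G00 G10 G11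
  rw [Matrix.trace_fin_two, Matrix.trace_fin_two, m]
  refine kbk_poly (f := B.1 0 1) (b := A.1 0 1) hA hB ?_ ?_ ?_ ?_
  · linear_combination E00 + E11
  · linear_combination F00 + F11
  · linear_combination G10
  · linear_combination G00 + G11

theorem KT.mk' (hup : ∀ A : SL(2, ℂ), cls A ∈ Γ → A.1 1 0 = 0 → ∃ β, cls A = t β)
    (tf : ∀ g ∈ Γ, ∀ n : ℕ, 0 < n → g ^ n = 1 → g = 1) {a b : PSL(2, ℂ)} (ha : a ∈ Γ) (hb : b ∈ Γ) (hτ : τ ≠ 0)
    (hc : a * b ≠ b * a) (hab : a * a * b * b = t τ) : ∃ A B : SL(2, ℂ), KT Γ τ A B := by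
  obtain ⟨A, rfl⟩ := cls_surj a
  obtain ⟨B, rfl⟩ := cls_surj b
  have h1 : cls (A * A * B * B) = cls (T τ) := hab
  rcases cls_eq.1 h1 with h2 | h2
  · exfalso
    have h3 : A * A * B * B = T τ := Subtype.ext h2
    have h4 := kbk_entries h3
    have hZ : (A * B).1 1 0 = 0 := by
      rcases mul_eq_zero.1 h4 with h5 | h5
      · exact absurd h5 hτ
      · rcases mul_eq_zero.1 h5 with h6 | h6
        · exact absurd h6 (mul_ne_zero (tr_ne tf ha) (tr_ne tf hb))
        · exact h6
    have hU : cls (A * B) ∈ Γ := by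
      rw [cls_mul]
      exact Γ.mul_mem ha hb
    obtain ⟨β, hβ⟩ := hup _ hU hZ
    rw [cls_mul] at hβ
    have hB : cls B = (cls A)⁻¹ * t β := by
      rw [eq_inv_mul_iff_mul_eq]
      exact hβ
    by_cases h0 : β = 0
    · apply hc
      rw [hB, h0, t_zero, mul_one, mul_inv_cancel, inv_mul_cancel]
    · have h5 : cls A * t β * (cls A)⁻¹ = t (τ - β) := by
        have h6 : cls A * t β * (cls A)⁻¹ * t β = t τ := by
          rw [← hab, ← hβ]
          rw [hB]
          group
        rw [sub_eq_add_neg, t_add, t_neg, eq_mul_inv_iff_mul_eq]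
        exact h6
      obtain ⟨α, hα⟩ := hup A ha (up_of_conj h0 h5)
      apply hc
      rw [hB, hα, ← t_neg, ← t_add, ← t_add, ← t_add]
      congr 1
      ring
  · exact ⟨A, B, ha, hb, h2, hc⟩

end Pool.Agent.HSN
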