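import Pool.Agent.HSN.Kbk
import Pool.Agent.HSC.Mnk

/-!
# HSN/Kbm: a minimal pair

PROOF PLAN.  `NK.pair_min` for `Q A B := KT Γ τ A B ∨ KT Γ (-τ) A B` (start `mk'`); minimal `A`, `B` with sum `S = N X + N Y + N Z`.  By `KT.swap` (same sum) assume `N X ≤ N Y`.  `KT.down`: the new pair has entries `Y' = z X - Y`, `X`, `Z`, so `N Y ≤ N Y'`; `Y Y' = X ^ 2 - Z ^ 2`
(`2 z = τ Z` and `KT.markov`), so `(N Y) ^ 2 ≤ N Y * N Y' = N (X ^ 2 - Z ^ 2)`.  `KT.up`: entries `Y`, `X' = z Y - X`, `Z`, `N X ≤ N X'`, `X X' = Y ^ 2 - Z ^ 2`.  (`N = Complex.normSq`.)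
-/

set_option autoImplicit false

noncomputable section

namespace Pool.Agent.HSN

open Pool.Agent.HSK Pool.Agent.HSG Pool.Agent.HSC Matrix
open scoped MatrixGroups commutatorElement

variable {Γ Δ : Subgroup PSL(2, ℂ)} {τ w : ℂ}

theorem NK.kmin (h : NK Γ Δ w) {a b : PSL(2, ℂ)} (ha : a ∈ Γ) (hb : b ∈ Γ) (hτ : τ ≠ 0) (hc : a * b ≠ b * a) (hab : a * a * b * b = t τ) :
    ∃ (A B : SL(2, ℂ)) (τ' : ℂ), (τ' = τ ∨ τ' = -τ) ∧ KT Γ τ' A B ∧ Complex.normSq (A.1 1 0) ≤ Complex.normSq (B.1 1 0) ∧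
      Complex.normSq (A.1 1 0) ^ 2 ≤ Complex.normSq (B.1 1 0 ^ 2 - (A * B).1 1 0 ^ 2) ∧
      Complex.normSq (B.1 1 0) ^ 2 ≤ Complex.normSq (A.1 1 0 ^ 2 - (A * B).1 1 0 ^ 2) := by
  have hup := h.trans_of_up
  have tf : ∀ g ∈ Γ, ∀ n : ℕ, 0 < n → g ^ n = 1 → g = 1 := h.tf
  obtain ⟨A₀, B₀, h₀⟩ := KT.mk' hup tf ha hb hτ hc hab
  obtain ⟨A, B, hQ, hmin⟩ := h.pair_min (fun A B => KT Γ τ A B ∨ KT Γ (-τ) A B)
    (fun A B hAB => by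
      rcases hAB with hAB | hAB
      · exact ⟨h.le hAB.a, h.le hAB.b⟩
      · exact ⟨h.le hAB.a, h.le hAB.b⟩) (Or.inl h₀)
  obtain ⟨A, B, τ', hτ', hK, hXY, hm⟩ : ∃ (A B : SL(2, ℂ)) (τ' : ℂ), (τ' = τ ∨ τ' = -τ) ∧ KT Γ τ' A B ∧
      Complex.normSq (A.1 1 0) ≤ Complex.normSq (B.1 1 0) ∧
      ∀ A' B' : SL(2, ℂ), (KT Γ τ A' B' ∨ KT Γ (-τ) A' B') →
        Complex.normSq (A.1 1 0) + Complex.normSq (B.1 1 0) + Complex.normSq ((A * B).1 1 0) ≤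
          Complex.normSq (A'.1 1 0) + Complex.normSq (B'.1 1 0) + Complex.normSq ((A' * B').1 1 0) := by
    obtain ⟨τ', hτ', hK⟩ : ∃ τ' : ℂ, (τ' = τ ∨ τ' = -τ) ∧ KT Γ τ' A B := by
      rcases hQ with hQ | hQ
      · exact ⟨τ, Or.inl rfl, hQ⟩
      · exact ⟨-τ, Or.inr rfl, hQ⟩
    rcases le_total (Complex.normSq (A.1 1 0)) (Complex.normSq (B.1 1 0)) with h1 | h1
    · exact ⟨A, B, τ', hτ', hK, h1, hmin⟩
    · obtain ⟨hS, s1, s2, s3⟩ := hK.swap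
      refine ⟨B⁻¹, A⁻¹, -τ', ?_, hS, ?_, ?_⟩
      · rcases hτ' with rfl | rfl
        · exact Or.inr rfl
        · exact Or.inl (neg_neg τ)
      · rw [s1, s2, Complex.normSq_neg, Complex.normSq_neg]
        exact h1
      · intro A' B' hAB
        rw [s1, s2, s3, Complex.normSq_neg, Complex.normSq_neg, Complex.normSq_neg]
        have h2 := hmin A' B' hAB
        linarith
  have hτ0 : τ' ≠ 0 := by
    rcases hτ' with rfl | rfl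
    · exact hτ
    · exact neg_ne_zero.2 hτ
  have hQ' : ∀ A' B' : SL(2, ℂ), KT Γ τ' A' B' → (KT Γ τ A' B' ∨ KT Γ (-τ) A' B') := by
    intro A' B' hK'
    rcases hτ' with rfl | rfl
    · exact Or.inl hK'
    · exact Or.inr hK'
  obtain ⟨-, -, -, -, -, -, e4⟩ := hK.rel tf hτ0
  have m := hK.markov tf hτ0
  obtain ⟨hD, d0, d1, d2⟩ := hK.down
  obtain ⟨hU, u0, u1, u2⟩ := hK.up
  have hd := hm _ _ (hQ' _ _ hD)
  have hu := hm _ _ (hQ' _ _ hU)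
  rw [d0, d1, d2] at hd
  rw [u0, u1, u2] at hu
  refine ⟨A, B, τ', hτ', hK, hXY, ?_, ?_⟩
  · have e : A.1 1 0 * ((A * B).1.trace * B.1 1 0 - A.1 1 0) = B.1 1 0 ^ 2 - (A * B).1 1 0 ^ 2 := by
      linear_combination (1 / 2) * m + (1 / 2) * (A.1 1 0 * B.1 1 0) * e4
    rw [← e, map_mul, pow_two]
    refine mul_le_mul_of_nonneg_left ?_ (Complex.normSq_nonneg _)
    linarith
  · have e : B.1 1 0 * ((A * B).1.trace * A.1 1 0 - B.1 1 0) = A.1 1 0 ^ 2 - (A * B).1 1 0 ^ 2 := by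
      linear_combination (1 / 2) * m + (1 / 2) * (A.1 1 0 * B.1 1 0) * e4
    rw [← e, map_mul, pow_two]
    refine mul_le_mul_of_nonneg_left ?_ (Complex.normSq_nonneg _)
    linarith

end Pool.Agent.HSN
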