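import Pool.Agent.HSG.Ptc
import Pool.Agent.HSG.Nf
import Pool.Agent.HSC.Nk

/-!
# HSN/Kbp: pairs with `A ^ 2 B ^ 2 = -T τ` (once punctured Klein bottles)

`X = A.1 1 0`, `Y = B.1 1 0`, `Z = (A * B).1 1 0`, `x, y, z` the traces of `A`, `B`, `U = A * B`.
PROOF PLAN (checked by computer on the figure eight group).  `K = A * U * B = -T τ`; `A ^ 2 = x A - 1`, `B ^ 2 = y B - 1` (Cayley-Hamilton).  `r1`: `A * U = K * B⁻¹`, `tr (A * U) = x z - tr (A⁻¹ * U) = x z - y`, `tr (K * B⁻¹) = -(y - τ Y)`; so `x z = τ Y`.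
`r2`: `U * B = A⁻¹ * K`, `tr (U * B) = z y - tr (U * B⁻¹) = z y - x`, `tr (A⁻¹ * K) = -(x - τ X)`; so `y z = τ X`.  `r4`: the lower left entry of `(x A - 1) * (y B - 1)` is zero.  `r3`: its trace is `x y z - x ^ 2 - y ^ 2 + 2 = -2`.
(Or generalise the entries and use `linear_combination`.)  `au`: `A * U = K * B⁻¹`, lower left entry `Y`; `ub`: `U⁻¹ * B`: `B = U⁻¹ ... `, from `U + U⁻¹ = z`: `U⁻¹ * B = z B - U * B`, and the lower left entry of `U * B = A⁻¹ * K` is `X`.  `ua`: `A * U⁻¹ = z A - A * U`.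
-/

set_option autoImplicit false

noncomputable section

namespace Pool.Agent.HSN

open Pool.Agent.HSK Pool.Agent.HSG Pool.Agent.HSC Matrix
open scoped MatrixGroups commutatorElement

/-- a pair with `A ^ 2 B ^ 2 = -T τ`, not commuting in `PSL(2, ℂ)` -/
structure KT (Γ : Subgroup PSL(2, ℂ)) (τ : ℂ) (A B : SL(2, ℂ)) : Prop where
  a : cls A ∈ Γ
  b : cls B ∈ Γ
  k : (A * A * B * B).1 = -(T τ).1
  nc : cls A * cls B ≠ cls B * cls A

variable {Γ : Subgroup PSL(2, ℂ)} {τ : ℂ} {A B : SL(2, ℂ)}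

private theorem kbp_det (A : SL(2, ℂ)) : A.1 0 0 * A.1 1 1 - A.1 0 1 * A.1 1 0 = 1 := by
  have h := A.2
  rw [Matrix.det_fin_two] at h
  exact h

private theorem kbp_ent (h : KT Γ τ A B) :
    (((A.1 0 0 * A.1 0 0 + A.1 0 1 * A.1 1 0) * B.1 0 0 +
        (A.1 0 0 * A.1 0 1 + A.1 0 1 * A.1 1 1) * B.1 1 0) * B.1 0 0 +
      ((A.1 0 0 * A.1 0 0 + A.1 0 1 * A.1 1 0) * B.1 0 1 +
        (A.1 0 0 * A.1 0 1 + A.1 0 1 * A.1 1 1) * B.1 1 1) * B.1 1 0 = -1) ∧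
    (((A.1 0 0 * A.1 0 0 + A.1 0 1 * A.1 1 0) * B.1 0 0 +
        (A.1 0 0 * A.1 0 1 + A.1 0 1 * A.1 1 1) * B.1 1 0) * B.1 0 1 +
      ((A.1 0 0 * A.1 0 0 + A.1 0 1 * A.1 1 0) * B.1 0 1 +
        (A.1 0 0 * A.1 0 1 + A.1 0 1 * A.1 1 1) * B.1 1 1) * B.1 1 1 = -τ) ∧
    (((A.1 1 0 * A.1 0 0 + A.1 1 1 * A.1 1 0) * B.1 0 0 +
        (A.1 1 0 * A.1 0 1 + A.1 1 1 * A.1 1 1) * B.1 1 0) * B.1 0 0 +
      ((A.1 1 0 * A.1 0 0 + A.1 1 1 * A.1 1 0) * B.1 0 1 +
        (A.1 1 0 * A.1 0 1 + A.1 1 1 * A.1 1 1) * B.1 1 1) * B.1 1 0 = 0) ∧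
    (((A.1 1 0 * A.1 0 0 + A.1 1 1 * A.1 1 0) * B.1 0 0 +
        (A.1 1 0 * A.1 0 1 + A.1 1 1 * A.1 1 1) * B.1 1 0) * B.1 0 1 +
      ((A.1 1 0 * A.1 0 0 + A.1 1 1 * A.1 1 0) * B.1 0 1 +
        (A.1 1 0 * A.1 0 1 + A.1 1 1 * A.1 1 1) * B.1 1 1) * B.1 1 1 = -1) := by
  have e := h.k
  have e00 := congrFun (congrFun e 0) 0
  have e01 := congrFun (congrFun e 0) 1
  have e10 := congrFun (congrFun e 1) 0
  have e11 := congrFun (congrFun e 1) 1
  simp only [Matrix.SpecialLinearGroup.coe_mul, Matrix.mul_apply, Fin.sum_univ_two, T,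
    Matrix.neg_apply, Matrix.of_apply, Matrix.cons_val', Matrix.cons_val_zero,
    Matrix.cons_val_one, Matrix.cons_val_fin_one, Matrix.empty_val', neg_zero] at e00 e01 e10 e11
  exact ⟨e00, e01, e10, e11⟩

private theorem kbp_mul00 (A B : SL(2, ℂ)) :
    (A * B).1 0 0 = A.1 0 0 * B.1 0 0 + A.1 0 1 * B.1 1 0 := by
  rw [Matrix.SpecialLinearGroup.coe_mul, Matrix.mul_apply, Fin.sum_univ_two]

private theorem kbp_mul01 (A B : SL(2, ℂ)) :
    (A * B).1 0 1 = A.1 0 0 * B.1 0 1 + A.1 0 1 * B.1 1 1 := by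
  rw [Matrix.SpecialLinearGroup.coe_mul, Matrix.mul_apply, Fin.sum_univ_two]

private theorem kbp_mul10 (A B : SL(2, ℂ)) :
    (A * B).1 1 0 = A.1 1 0 * B.1 0 0 + A.1 1 1 * B.1 1 0 := by
  rw [Matrix.SpecialLinearGroup.coe_mul, Matrix.mul_apply, Fin.sum_univ_two]

private theorem kbp_mul11 (A B : SL(2, ℂ)) :
    (A * B).1 1 1 = A.1 1 0 * B.1 0 1 + A.1 1 1 * B.1 1 1 := by
  rw [Matrix.SpecialLinearGroup.coe_mul, Matrix.mul_apply, Fin.sum_univ_two]

private theorem kbp_inv00 (A : SL(2, ℂ)) : (A⁻¹).1 0 0 = A.1 1 1 := by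
  rw [Matrix.SpecialLinearGroup.coe_inv, Matrix.adjugate_fin_two]
  rfl

private theorem kbp_inv01 (A : SL(2, ℂ)) : (A⁻¹).1 0 1 = -A.1 0 1 := by
  rw [Matrix.SpecialLinearGroup.coe_inv, Matrix.adjugate_fin_two]
  rfl

private theorem kbp_inv10 (A : SL(2, ℂ)) : (A⁻¹).1 1 0 = -A.1 1 0 := by
  rw [Matrix.SpecialLinearGroup.coe_inv, Matrix.adjugate_fin_two]
  rfl

private theorem kbp_inv11 (A : SL(2, ℂ)) : (A⁻¹).1 1 1 = A.1 0 0 := by
  rw [Matrix.SpecialLinearGroup.coe_inv, Matrix.adjugate_fin_two]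
  rfl

private theorem kbp_mulv (A B : SL(2, ℂ)) : cls (A * B) = cls A * cls B := rfl

private theorem kbp_invv (A : SL(2, ℂ)) : cls A⁻¹ = (cls A)⁻¹ := rfl

theorem KT.r1 (h : KT Γ τ A B) : A.1.trace * (A * B).1.trace = τ * B.1 1 0 := by
  obtain ⟨e00, e01, e10, e11⟩ := kbp_ent h
  have hA := kbp_det A
  have hB := kbp_det B
  rw [Matrix.trace_fin_two, Matrix.trace_fin_two, kbp_mul00, kbp_mul11]
  generalize A.1 0 0 = a at *
  generalize A.1 0 1 = b at *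
  generalize A.1 1 0 = c at *
  generalize A.1 1 1 = d at *
  generalize B.1 0 0 = p at *
  generalize B.1 0 1 = q at *
  generalize B.1 1 0 = r at *
  generalize B.1 1 1 = s at *
  linear_combination s * e00 - r * e01 - q * e10 + p * e11 -
    ((a * a + b * c) * p + (a * b + b * d) * r + ((c * a + d * c) * q + (c * b + d * d) * s)) * hB +
    (p + s) * hA

theorem KT.r2 (h : KT Γ τ A B) : B.1.trace * (A * B).1.trace = τ * A.1 1 0 := by
  obtain ⟨e00, e01, e10, e11⟩ := kbp_ent h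
  have hA := kbp_det A
  have hB := kbp_det B
  rw [Matrix.trace_fin_two, Matrix.trace_fin_two, kbp_mul00, kbp_mul11]
  generalize A.1 0 0 = a at *
  generalize A.1 0 1 = b at *
  generalize A.1 1 0 = c at *
  generalize A.1 1 1 = d at *
  generalize B.1 0 0 = p at *
  generalize B.1 0 1 = q at *
  generalize B.1 1 0 = r at *
  generalize B.1 1 1 = s at *
  linear_combination d * e00 - b * e10 - c * e01 + a * e11 -
    (a * (p * p + q * r) + b * (r * p + s * r) + (c * (p * q + q * s) + d * (r * q + s * s))) * hA +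
    (a + d) * hB

theorem KT.r3 (h : KT Γ τ A B) : A.1.trace * B.1.trace * (A * B).1.trace = A.1.trace ^ 2 + B.1.trace ^ 2 - 4 := by
  obtain ⟨e00, e01, e10, e11⟩ := kbp_ent h
  have hA := kbp_det A
  have hB := kbp_det B
  rw [Matrix.trace_fin_two, Matrix.trace_fin_two, Matrix.trace_fin_two, kbp_mul00, kbp_mul11]
  generalize A.1 0 0 = a at *
  generalize A.1 0 1 = b at *
  generalize A.1 1 0 = c at *
  generalize A.1 1 1 = d at *
  generalize B.1 0 0 = p at *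
  generalize B.1 0 1 = q at *
  generalize B.1 1 0 = r at *
  generalize B.1 1 1 = s at *
  linear_combination e00 + e11 + (a + d) ^ 2 * hB + (p + s) ^ 2 * hA -
    2 * (p * s - q * r) * hA - 2 * hB

theorem KT.r4 (h : KT Γ τ A B) : A.1.trace * B.1.trace * (A * B).1 1 0 = A.1.trace * A.1 1 0 + B.1.trace * B.1 1 0 := by
  obtain ⟨e00, e01, e10, e11⟩ := kbp_ent h
  have hA := kbp_det A
  have hB := kbp_det B
  rw [Matrix.trace_fin_two, Matrix.trace_fin_two, kbp_mul10]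
  generalize A.1 0 0 = a at *
  generalize A.1 0 1 = b at *
  generalize A.1 1 0 = c at *
  generalize A.1 1 1 = d at *
  generalize B.1 0 0 = p at *
  generalize B.1 0 1 = q at *
  generalize B.1 1 0 = r at *
  generalize B.1 1 1 = s at *
  linear_combination e10 + (a + d) * c * hB + (p + s) * r * hA

private theorem kbp_au (h : KT Γ τ A B) : (A * (A * B)).1 1 0 = B.1 1 0 := by
  obtain ⟨e00, e01, e10, e11⟩ := kbp_ent h
  have hA := kbp_det A
  have hB := kbp_det B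
  rw [kbp_mul10, kbp_mul00, kbp_mul10]
  generalize A.1 0 0 = a at *
  generalize A.1 0 1 = b at *
  generalize A.1 1 0 = c at *
  generalize A.1 1 1 = d at *
  generalize B.1 0 0 = p at *
  generalize B.1 0 1 = q at *
  generalize B.1 1 0 = r at *
  generalize B.1 1 1 = s at *
  linear_combination s * e10 - r * e11 -
    ((c * a + d * c) * p + (c * b + d * d) * r) * hB

private theorem kbp_ub (h : KT Γ τ A B) : (A * B * B).1 1 0 = A.1 1 0 := by
  obtain ⟨e00, e01, e10, e11⟩ := kbp_ent h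
  have hA := kbp_det A
  have hB := kbp_det B
  rw [kbp_mul10, kbp_mul10, kbp_mul11]
  generalize A.1 0 0 = a at *
  generalize A.1 0 1 = b at *
  generalize A.1 1 0 = c at *
  generalize A.1 1 1 = d at *
  generalize B.1 0 0 = p at *
  generalize B.1 0 1 = q at *
  generalize B.1 1 0 = r at *
  generalize B.1 1 1 = s at *
  linear_combination a * e10 - c * e00 -
    ((c * p + d * r) * p + (c * q + d * s) * r) * hA

private theorem kbp_T (τ : ℂ) (K : SL(2, ℂ)) (h : K.1 = -(T τ).1) : (K⁻¹).1 = -(T (-τ)).1 := by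
  have e00 := congrFun (congrFun h 0) 0
  have e01 := congrFun (congrFun h 0) 1
  have e10 := congrFun (congrFun h 1) 0
  have e11 := congrFun (congrFun h 1) 1
  simp only [T, Matrix.neg_apply, Matrix.of_apply, Matrix.cons_val', Matrix.cons_val_zero,
    Matrix.cons_val_one, Matrix.cons_val_fin_one, Matrix.empty_val', neg_zero] at e00 e01 e10 e11
  ext i j
  fin_cases i <;> fin_cases j
  · change (K⁻¹).1 0 0 = -(1 : ℂ)
    rw [kbp_inv00, e11]
  · change (K⁻¹).1 0 1 = -(-τ)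
    rw [kbp_inv01, e01]
  · change (K⁻¹).1 1 0 = -(0 : ℂ)
    rw [kbp_inv10, e10]
  · change (K⁻¹).1 1 1 = -(1 : ℂ)
    rw [kbp_inv11, e00]

/-- the inverse pair `(b⁻¹, a⁻¹)` -/
theorem KT.swap (h : KT Γ τ A B) : KT Γ (-τ) B⁻¹ A⁻¹ ∧ (B⁻¹).1 1 0 = -B.1 1 0 ∧ (A⁻¹).1 1 0 = -A.1 1 0 ∧ (B⁻¹ * A⁻¹).1 1 0 = -(A * B).1 1 0 := by
  refine ⟨⟨?_, ?_, ?_, ?_⟩, kbp_inv10 B, kbp_inv10 A, ?_⟩
  · rw [kbp_invv]
    exact Γ.inv_mem h.b
  · rw [kbp_invv]
    exact Γ.inv_mem h.a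
  · have e : B⁻¹ * B⁻¹ * A⁻¹ * A⁻¹ = (A * A * B * B)⁻¹ := by group
    rw [e]
    exact kbp_T τ _ h.k
  · intro e
    apply h.nc
    rw [kbp_invv, kbp_invv] at e
    have e2 := congrArg (fun x => x⁻¹) e
    simp only [_root_.mul_inv_rev, inv_inv] at e2
    exact e2
  · rw [← _root_.mul_inv_rev]
    exact kbp_inv10 _

/-- the pair `(a u, u⁻¹ b)`, `u = a b` -/
theorem KT.up (h : KT Γ τ A B) : KT Γ τ (A * (A * B)) ((A * B)⁻¹ * B) ∧ A * (A * B) * ((A * B)⁻¹ * B) = A * B ∧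
    (A * (A * B)).1 1 0 = B.1 1 0 ∧ ((A * B)⁻¹ * B).1 1 0 = (A * B).1.trace * B.1 1 0 - A.1 1 0 := by
  refine ⟨⟨?_, ?_, ?_, ?_⟩, by group, kbp_au h, ?_⟩
  · rw [kbp_mulv, kbp_mulv]
    exact Γ.mul_mem h.a (Γ.mul_mem h.a h.b)
  · rw [kbp_mulv, kbp_invv, kbp_mulv]
    exact Γ.mul_mem (Γ.inv_mem (Γ.mul_mem h.a h.b)) h.b
  · have e : A * (A * B) * (A * (A * B)) * ((A * B)⁻¹ * B) * ((A * B)⁻¹ * B) = A * A * B * B := by
      group
    rw [e]
    exact h.k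
  · intro e
    apply h.nc
    simp only [kbp_mulv, kbp_invv] at e
    generalize cls A = a at *
    generalize cls B = b at *
    have e1 : a * (a * b) * ((a * b)⁻¹ * b) = a * b := by group
    have e2 : (a * b)⁻¹ * b * (a * (a * b)) = b⁻¹ * (a⁻¹ * (b * a)) * (a * b) := by group
    rw [e1, e2] at e
    have e3 : b⁻¹ * (a⁻¹ * (b * a)) = 1 := mul_right_cancel (b := a * b) (by rw [one_mul]; exact e.symm)
    have e4 : a * b * (b⁻¹ * (a⁻¹ * (b * a))) = b * a := by group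
    rw [e3, mul_one] at e4
    exact e4
  · have e := kbp_ub h
    rw [kbp_mul10, kbp_mul10, kbp_mul11] at e
    rw [kbp_mul10, kbp_inv10, kbp_inv11, Matrix.trace_fin_two, kbp_mul10, kbp_mul00, kbp_mul11]
    linear_combination (-1 : ℂ) * e

/-- the pair `(a u⁻¹, u b)` -/
theorem KT.down (h : KT Γ τ A B) : KT Γ τ (A * (A * B)⁻¹) (A * B * B) ∧ A * (A * B)⁻¹ * (A * B * B) = A * B ∧
    (A * (A * B)⁻¹).1 1 0 = (A * B).1.trace * A.1 1 0 - B.1 1 0 ∧ (A * B * B).1 1 0 = A.1 1 0 := by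
  refine ⟨⟨?_, ?_, ?_, ?_⟩, by group, ?_, kbp_ub h⟩
  · rw [kbp_mulv, kbp_invv, kbp_mulv]
    exact Γ.mul_mem h.a (Γ.inv_mem (Γ.mul_mem h.a h.b))
  · rw [kbp_mulv, kbp_mulv]
    exact Γ.mul_mem (Γ.mul_mem h.a h.b) h.b
  · have e : A * (A * B)⁻¹ * (A * (A * B)⁻¹) * (A * B * B) * (A * B * B) = A * A * B * B := by
      group
    rw [e]
    exact h.k
  · intro e
    apply h.nc
    simp only [kbp_mulv, kbp_invv] at e
    generalize cls A = a at *
    generalize cls B = b at *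
    have e1 : a * (a * b)⁻¹ * (a * b * b) = a * b := by group
    have e2 : a * b * b * (a * (a * b)⁻¹) = a * b * (b * a * b⁻¹ * a⁻¹) := by group
    rw [e1, e2] at e
    have e3 : b * a * b⁻¹ * a⁻¹ = 1 := mul_left_cancel (a := a * b) (by rw [mul_one]; exact e.symm)
    have e4 : b * a * b⁻¹ * a⁻¹ * (a * b) = b * a := by group
    rw [e3, one_mul] at e4
    exact e4
  · have e := kbp_au h
    rw [kbp_mul10, kbp_mul00, kbp_mul10] at e
    rw [kbp_mul10, kbp_inv00, kbp_inv10, Matrix.trace_fin_two, kbp_mul10, kbp_mul00, kbp_mul11]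
    linear_combination (-1 : ℂ) * e

end Pool.Agent.HSN
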