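import Pool.Agent.HSN.Kbp
import Pool.Agent.HSC.Eik

/-!
# HSN/Kbs: the relations for torsion free groups

PROOF PLAN.  `tr_ne`: if the trace of `A` is zero then `A * A = -1`, `cls A ^ 2 = 1`, so `cls A = 1`, `A = ± 1`, trace `± 2`.  Consequently (with `τ ≠ 0`): `x, y, z ≠ 0`, `X, Y ≠ 0` (`r1`, `r2`); `x X = y Y` (both are `x y z / τ`), `y Z = 2 X` (`r4` divided by `x`),
`x Z = 2 Y`, `2 z = τ Z` (`x z = τ Y`, times `2`), `Z ≠ 0`; `τ X Y Z = 2 (X ^ 2 + Y ^ 2 - Z ^ 2)` (`r3` times `Z ^ 2`).  `W = (A * A).1 1 0 = x X`.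
-/

set_option autoImplicit false

noncomputable section

namespace Pool.Agent.HSN

open Pool.Agent.HSK Pool.Agent.HSG Pool.Agent.HSC Matrix
open scoped MatrixGroups commutatorElement

variable {Γ : Subgroup PSL(2, ℂ)} {τ : ℂ} {A B : SL(2, ℂ)}

private theorem kbs_mul_coe (A B : SL(2, ℂ)) : (A * B).1 =
    !![A.1 0 0 * B.1 0 0 + A.1 0 1 * B.1 1 0, A.1 0 0 * B.1 0 1 + A.1 0 1 * B.1 1 1;
      A.1 1 0 * B.1 0 0 + A.1 1 1 * B.1 1 0, A.1 1 0 * B.1 0 1 + A.1 1 1 * B.1 1 1] := by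
  rw [Matrix.SpecialLinearGroup.coe_mul]
  ext i j
  fin_cases i <;> fin_cases j <;> simp [Matrix.mul_apply, Fin.sum_univ_two]

theorem tr_ne (tf : ∀ g ∈ Γ, ∀ n : ℕ, 0 < n → g ^ n = 1 → g = 1) {A : SL(2, ℂ)} (hA : cls A ∈ Γ) : A.1.trace ≠ 0 := by
  intro h0
  rw [Matrix.trace_fin_two] at h0
  have hd := det_eq A
  have h1 : A * A = -1 := by
    apply Subtype.ext
    rw [kbs_mul_coe]
    ext i j
    fin_cases i <;> fin_cases j
    · simp
      linear_combination (A.1 0 0) * h0 - hd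
    · simp
      linear_combination (A.1 0 1) * h0
    · simp
      linear_combination (A.1 1 0) * h0
    · simp
      linear_combination (A.1 1 1) * h0 - hd
  have h2 : cls A ^ 2 = 1 := by
    rw [pow_two, ← cls_mul, h1, ← cls_one]
    exact cls_eq.2 (Or.inr rfl)
  have h3 := tf _ hA 2 (by norm_num) h2
  rw [← cls_one] at h3
  rcases cls_eq.1 h3 with h | h
  · rw [h] at h0
    norm_num at h0
  · rw [h] at h0
    norm_num at h0

theorem KT.rel (tf : ∀ g ∈ Γ, ∀ n : ℕ, 0 < n → g ^ n = 1 → g = 1) (hτ : τ ≠ 0) (h : KT Γ τ A B) :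
    A.1 1 0 ≠ 0 ∧ B.1 1 0 ≠ 0 ∧ (A * B).1 1 0 ≠ 0 ∧ A.1.trace * A.1 1 0 = B.1.trace * B.1 1 0 ∧
      B.1.trace * (A * B).1 1 0 = 2 * A.1 1 0 ∧ A.1.trace * (A * B).1 1 0 = 2 * B.1 1 0 ∧
      2 * (A * B).1.trace = τ * (A * B).1 1 0 := by
  have hx := tr_ne tf h.a
  have hy := tr_ne tf h.b
  have hz : (A * B).1.trace ≠ 0 := tr_ne tf (by rw [cls_mul]; exact Γ.mul_mem h.a h.b)
  have r1 := h.r1
  have r2 := h.r2
  have r4 := h.r4
  generalize A.1.trace = x at *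
  generalize B.1.trace = y at *
  generalize (A * B).1.trace = z at *
  generalize A.1 1 0 = X at *
  generalize B.1 1 0 = Y at *
  generalize (A * B).1 1 0 = Z at *
  have hX : X ≠ 0 := by
    rintro rfl
    rw [mul_zero] at r2
    exact mul_ne_zero hy hz r2
  have hY : Y ≠ 0 := by
    rintro rfl
    rw [mul_zero] at r1
    exact mul_ne_zero hx hz r1
  have e1 : x * X = y * Y := mul_left_cancel₀ hτ (by linear_combination y * r1 - x * r2)
  have e2 : y * Z = 2 * X := mul_left_cancel₀ hx (by linear_combination r4 - e1)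
  have e3 : x * Z = 2 * Y := mul_left_cancel₀ hy (by linear_combination r4 + e1)
  have e4 : 2 * z = τ * Z := mul_left_cancel₀ hx (by linear_combination 2 * r1 - τ * e3)
  refine ⟨hX, hY, ?_, e1, e2, e3, e4⟩
  rintro rfl
  rw [mul_zero] at e2
  exact mul_ne_zero two_ne_zero hX e2.symm

theorem KT.markov (tf : ∀ g ∈ Γ, ∀ n : ℕ, 0 < n → g ^ n = 1 → g = 1) (hτ : τ ≠ 0) (h : KT Γ τ A B) :
    τ * A.1 1 0 * B.1 1 0 * (A * B).1 1 0 = 2 * (A.1 1 0 ^ 2 + B.1 1 0 ^ 2 - (A * B).1 1 0 ^ 2) := by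
  obtain ⟨-, -, -, -, e2, e3, e4⟩ := h.rel tf hτ
  have r3 := h.r3
  generalize A.1.trace = x at *
  generalize B.1.trace = y at *
  generalize (A * B).1.trace = z at *
  generalize A.1 1 0 = X at *
  generalize B.1 1 0 = Y at *
  generalize (A * B).1 1 0 = Z at *
  linear_combination (1 / 2) * Z ^ 2 * r3 - (X * Y) * e4 + (1 / 2) * (-(z * y * Z) + 2 * Y + x * Z) * e3 +
    (1 / 2) * (-(2 * Y * z) + 2 * X + y * Z) * e2

/-- `W = (A * A).1 1 0` -/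
theorem KT.sq (tf : ∀ g ∈ Γ, ∀ n : ℕ, 0 < n → g ^ n = 1 → g = 1) (hτ : τ ≠ 0) (h : KT Γ τ A B) :
    (A * A).1 1 0 = A.1.trace * A.1 1 0 ∧ (A * A).1 1 0 ≠ 0 ∧ (A * A).1 1 0 * (A * B).1 1 0 = 2 * (A.1 1 0 * B.1 1 0) ∧
      τ * (A * A).1 1 0 * A.1 1 0 ^ 2 * B.1 1 0 ^ 2 =
        (A * A).1 1 0 ^ 2 * (A.1 1 0 ^ 2 + B.1 1 0 ^ 2) - 4 * A.1 1 0 ^ 2 * B.1 1 0 ^ 2 := by
  have hx := tr_ne tf h.a
  obtain ⟨hX, -, -, -, -, e3, -⟩ := h.rel tf hτ
  have m := h.markov tf hτ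
  have hW : (A * A).1 1 0 = A.1.trace * A.1 1 0 := by
    rw [kbs_mul_coe, Matrix.trace_fin_two]
    simp
    ring
  generalize A.1.trace = x at *
  generalize (A * A).1 1 0 = W at *
  generalize A.1 1 0 = X at *
  generalize B.1 1 0 = Y at *
  generalize (A * B).1 1 0 = Z at *
  have e : W * Z = 2 * (X * Y) := by
    rw [hW]
    linear_combination X * e3
  refine ⟨hW, by rw [hW]; exact mul_ne_zero hx hX, e, ?_⟩
  linear_combination (1 / 2) * W ^ 2 * m - (1 / 2) * (τ * X * Y * W + 2 * (W * Z + 2 * (X * Y))) * e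

end Pool.Agent.HSN
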