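import Pool.Agent.HSN.Knf
import Pool.Agent.HSC.Nfk
import Pool.Agent.HSG.Nfo

/-!
# HSN/Kfn: the theorem for knot groups

As HSG/Fnl: after a conjugation which takes the meridian to `t 1` the knot group is in normal form (`nk_of`, `nf_of`), the product
`a * a * b * b` is a translation by `τ`, `12 ≤ normSq τ` by the description of the translations, and `NK.klein` applies.
-/

set_option autoImplicit false

noncomputable section

namespace Pool.Agent.HSN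

open Pool.Agent.HSK Pool.Agent.HSG Pool.Agent.HSC Matrix
open scoped MatrixGroups commutatorElement

variable {Γ Δ : Subgroup PSL(2, ℂ)} {μ : PSL(2, ℂ)}

theorem klein (hΓ : IsKnotGroup Γ μ) (h1 : Γ ≤ Δ) (h2 : Δ ≤ Subgroup.Commensurable.commensurator Γ)
    (hd : DiscreteTopology Δ) (hn : ¬ Δ ≤ Subgroup.normalizer (Γ : Set PSL(2, ℂ)))
    (hi : (∀ A : SL(2, ℂ), cls A ∈ Γ → IsIntegral ℤ A.1.trace) ∨ MeridianGenerates Δ μ) {n : ℕ} (hn3 : n = 3 ∨ n = 6) (hc : IsCuspOrder Δ μ n)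
    (h12 : 4 * n ≤ Γ.relIndex Δ) {a b : PSL(2, ℂ)} (ha : a ∈ Γ) (hb : b ∈ Γ) (hab : a * b ≠ b * a)
    (hk : Commute (a ^ 2 * b ^ 2) μ) (hm : a ^ 2 * b ^ 2 ∉ Subgroup.zpowers μ) :
    ∃ (q : PSL(2, ℂ)) (v : ℂ), v ^ 2 + v + 1 = 0 ∧ q * t 1 * q⁻¹ = μ ∧ Γ = (F8 v).map (MulAut.conj q).toMonoidHom := by
  obtain ⟨hμ1, M, hM, htr⟩ := hΓ.parabolic
  have hM1 : M ≠ 1 := by
    rintro rfl
    exact hμ1 (by rw [← hM, cls_one])
  obtain ⟨P, hP⟩ := par_form htr hM1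
  have hp : cls P * t 1 * (cls P)⁻¹ = μ := by
    rw [← hM]
    have h3 : cls M * cls P = cls P * t 1 := by
      show cls (M * P) = cls (P * T 1)
      rw [hP]
    rw [← h3]
    group
  have hsurj : ∀ (p : PSL(2, ℂ)) (S : Subgroup PSL(2, ℂ)), (cj p S).map (MulAut.conj p).toMonoidHom = S :=
    fun p S => Subgroup.map_comap_eq_self_of_surjective (MulAut.conj p).surjective S
  have hMG : MeridianGenerates Δ μ := by
    rcases hi with hi | hi
    · obtain ⟨n', -, -, -, -, -, -, -, -, h5, -⟩ := main3 hΓ h1 h2 hd hn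
      exact h5 hi
    · exact hi
  have hn0 : 0 < n := by omega
  have hn4 : n ≠ 4 := by omega
  obtain ⟨w, hnk, -, -⟩ := nk_of hΓ h1 h2 hd hn hp hMG hn0 hc hn4
  obtain ⟨w', hnf⟩ := nf_of hΓ h1 h2 hd hn hp hMG hn0 hc hn4 h12
  obtain ⟨k, hkk⟩ : ∃ k, k = a ^ 2 * b ^ 2 := ⟨_, rfl⟩
  have hkΓ : k ∈ Γ := by
    rw [hkk]
    exact Γ.mul_mem (Γ.pow_mem ha 2) (Γ.pow_mem hb 2)
  rw [← hkk] at hk hm
  obtain ⟨K, hK⟩ := cls_surj ((cls P)⁻¹ * k * cls P)
  have hcK : Commute (cls K) (t 1) := by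
    rw [hK, ← comm_conj_iff (p := cls P), hp]
    have e : cls P * ((cls P)⁻¹ * k * cls P) * (cls P)⁻¹ = k := by group
    rw [e]
    exact hk
  obtain ⟨τ, hτ⟩ := comm_t1 hcK
  have hkt : (cls P)⁻¹ * k * cls P = t τ := hK.symm.trans hτ
  have hkt' : k = cls P * t τ * (cls P)⁻¹ := by
    rw [← hkt]
    group
  have hτΓ : t τ ∈ cj (cls P) Γ := by
    rw [← hkt]
    exact mem_cj' hkΓ
  obtain ⟨x, y, hy, hper⟩ := hnf.per
  obtain ⟨m, l, hml⟩ := (hper τ).1 hτΓ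
  have hl : l ≠ 0 := by
    rintro rfl
    apply hm
    refine Subgroup.mem_zpowers_iff.2 ⟨m, ?_⟩
    have e : τ = (m : ℂ) := by
      rw [hml]
      push_cast
      ring
    rw [hkt', e, ← hp, conj_zpow, t_one_pow]
  have hly : 4 ≤ |l * y| := by
    rw [abs_mul]
    have h3 : 1 ≤ |l| := Int.one_le_abs hl
    nlinarith [abs_nonneg y]
  have hτn : 12 ≤ Complex.normSq τ := by
    have h3 := (oz_twelve hnf.w2 (x := m + l * x) hly).1
    have e : ((m + l * x : ℤ) : ℂ) + ((l * y : ℤ) : ℂ) * w' = τ := by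
      rw [hml]
      push_cast
      ring
    rw [e] at h3
    exact h3
  have hne : ((cls P)⁻¹ * a * cls P) * ((cls P)⁻¹ * b * cls P) ≠ ((cls P)⁻¹ * b * cls P) * ((cls P)⁻¹ * a * cls P) := by
    intro h3
    apply hab
    have e1 : a * b = cls P * (((cls P)⁻¹ * a * cls P) * ((cls P)⁻¹ * b * cls P)) * (cls P)⁻¹ := by group
    have e2 : b * a = cls P * (((cls P)⁻¹ * b * cls P) * ((cls P)⁻¹ * a * cls P)) * (cls P)⁻¹ := by group
    rw [e1, e2, h3]
  have heq : ((cls P)⁻¹ * a * cls P) * ((cls P)⁻¹ * a * cls P) * ((cls P)⁻¹ * b * cls P) *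
      ((cls P)⁻¹ * b * cls P) = t τ := by
    rw [← hkt, hkk, pow_two, pow_two]
    group
  obtain ⟨p, v, hv, hcj⟩ := NK.klein hnk (mem_cj' ha) (mem_cj' hb) hτn hne heq
  refine ⟨cls P * t p, v, hv, ?_, ?_⟩
  · have e : cls P * t p * t 1 * (cls P * t p)⁻¹ = cls P * (t p * t 1 * (t p)⁻¹) * (cls P)⁻¹ := by group
    rw [e, (t_comm p 1).eq, mul_inv_cancel_right]
    exact hp
  · have e2 : cj (cls P * t p) Γ = F8 v := by
      rw [← hcj]
      ext x
      rw [mem_cj, mem_cj, mem_cj]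
      have e : cls P * t p * x * (cls P * t p)⁻¹ = cls P * (t p * x * (t p)⁻¹) * (cls P)⁻¹ := by group
      rw [e]
    rw [← e2]
    exact (hsurj _ _).symm

end Pool.Agent.HSN
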