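import Pool.Agent.HSG.Nf

/-!
# HSN/Kin: inequalities

`kin_c`: for `3 < p ≤ q ≤ s ≤ p + q` we have `4 (p + q + s) ^ 2 ≤ 36 q s < 12 p q s`.  `kin1`, `kin5` follow from it (sort the three numbers); `kin2` is a direct estimate.
-/

set_option autoImplicit false

noncomputable section

namespace Pool.Agent.HSN

open Pool.Agent.HSK Pool.Agent.HSG Matrix
open scoped MatrixGroups commutatorElement

private theorem kin_c {p q s T : ℝ} (hp : 3 < p) (h1 : p ≤ q) (h2 : q ≤ s) (h3 : s ≤ p + q) (hT : 12 ≤ T)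
    (h : T * (p * (q * s)) ≤ 4 * (p + q + s) ^ 2) : False := by
  have hq : 3 < q := by linarith
  have hs : 3 < s := by linarith
  have hqs : 0 < q * s := mul_pos (by linarith) (by linarith)
  have e1 : (p + q + s) ^ 2 ≤ (2 * q + s) ^ 2 := pow_le_pow_left₀ (by linarith) (by linarith) 2
  have e2 : 0 ≤ (4 * q - s) * (s - q) := mul_nonneg (by linarith) (by linarith)
  have e3 : (p + q + s) ^ 2 ≤ 9 * (q * s) := by nlinarith
  have e4 : 3 * (q * s) < p * (q * s) := mul_lt_mul_of_pos_right hp hqs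
  have e5 : 12 * (p * (q * s)) ≤ T * (p * (q * s)) := mul_le_mul_of_nonneg_right hT (by nlinarith)
  linarith

private theorem kin_d {a b c T : ℝ} (ha : 3 < a) (hc : 3 < c) (hT : 12 ≤ T) (h : T * a * b * c ≤ 4 * (a + b + c) ^ 2)
    (h1 : a ≤ b) (h2 : b ≤ a + c) (h3 : c ≤ a + b) : False := by
  rcases le_total c a with hca | hac
  · refine kin_c hc hca h1 (by linarith) hT ?_
    calc T * (c * (a * b)) = T * a * b * c := by ring
      _ ≤ 4 * (a + b + c) ^ 2 := h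
      _ = 4 * (c + a + b) ^ 2 := by ring
  · rcases le_total c b with hcb | hbc
    · refine kin_c ha hac hcb h2 hT ?_
      calc T * (a * (c * b)) = T * a * b * c := by ring
        _ ≤ 4 * (a + b + c) ^ 2 := h
        _ = 4 * (a + c + b) ^ 2 := by ring
    · refine kin_c ha h1 hbc h3 hT ?_
      calc T * (a * (b * c)) = T * a * b * c := by ring
        _ ≤ 4 * (a + b + c) ^ 2 := h

theorem kin1 {a b c T : ℝ} (ha : 0 < a) (hb : 0 < b) (hc : 0 < c) (hT : 12 ≤ T) (h : T * a * b * c ≤ 4 * (a + b + c) ^ 2)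
    (h1 : a ≤ b) (h2 : b ≤ a + c) (h3 : c ≤ a + b) : a ≤ 3 ∨ c ≤ 3 := by
  by_contra hcon
  rw [not_or, not_le, not_le] at hcon
  exact kin_d hcon.1 hcon.2 hT h h1 h2 h3

/-- `S = ‖τ‖`, `D = ‖W‖` -/
theorem kin2 {a b c S D : ℝ} (ha : 0 < a) (hb : 0 < b) (hD : 0 < D) (hS : 12 ≤ S ^ 2) (hS0 : 0 ≤ S)
    (h : S * D * a * b ≤ D ^ 2 * (a + b) + 4 * a * b) (h1 : a ≤ b) (h2 : a + b < c) (h3 : D ^ 2 * c = 4 * (a * b)) : a ≤ 3 ∨ D ^ 2 ≤ 3 := by
  by_contra hcon
  rw [not_or, not_le, not_le] at hcon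
  obtain ⟨ha3, hD3⟩ := hcon
  have hb3 : 3 < b := by linarith
  have hk : Real.sqrt 3 ^ 2 = 3 := Real.sq_sqrt (by norm_num)
  have hk0 : 0 < Real.sqrt 3 := Real.sqrt_pos.2 (by norm_num)
  set k : ℝ := Real.sqrt 3 with hkd
  have hkD : k < D := lt_of_pow_lt_pow_left₀ 2 hD.le (by rw [hk]; exact hD3)
  have hkS : 2 * k ≤ S := le_of_sq_le_sq (by nlinarith) hS0
  have hv : 0 < a * b := mul_pos ha hb
  have e1 : 3 * (a + b) < 2 * (a * b) := by nlinarith
  have e2 : D ^ 2 * (a + b) < 4 * (a * b) := by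
    rw [← h3]
    exact mul_lt_mul_of_pos_left h2 (by positivity)
  have e3 : k * D * (a + b) < 4 * (a * b) := by
    refine lt_trans ?_ e2
    rw [sq]
    exact mul_lt_mul_of_pos_right (mul_lt_mul_of_pos_right hkD hD) (by linarith)
  have e4 : 0 < (D - k) * (4 * (a * b) - k * D * (a + b)) := mul_pos (by linarith) (by linarith)
  have e5 : k * (D ^ 2 * (a + b) + 4 * (a * b)) < 6 * (D * (a * b)) := by
    have e6 : (D - k) * (4 * (a * b) - k * D * (a + b)) = 4 * (D * (a * b)) + k ^ 2 * (D * (a + b)) -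
        k * (D ^ 2 * (a + b) + 4 * (a * b)) := by ring
    rw [e6, hk] at e4
    have e7 : 3 * (D * (a + b)) < 2 * (D * (a * b)) := by
      have := mul_lt_mul_of_pos_left e1 hD
      linarith
    linarith
  have e8 : 2 * k * (D * (a * b)) ≤ D ^ 2 * (a + b) + 4 * (a * b) := by
    have e9 : 2 * k * (D * (a * b)) ≤ S * (D * (a * b)) := mul_le_mul_of_nonneg_right hkS (by positivity)
    calc 2 * k * (D * (a * b)) ≤ S * (D * (a * b)) := e9
      _ = S * D * a * b := by ring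
      _ ≤ D ^ 2 * (a + b) + 4 * a * b := h
      _ = D ^ 2 * (a + b) + 4 * (a * b) := by ring
  have e10 := mul_le_mul_of_nonneg_left e8 hk0.le
  have e11 : k * (2 * k * (D * (a * b))) = 2 * k ^ 2 * (D * (a * b)) := by ring
  rw [e11, hk] at e10
  linarith

theorem kin5 {a b c r T : ℝ} (hr : r = (3 + Real.sqrt 5) / 2) (ha : 9 / r ≤ a) (hb : 9 / r ≤ b) (hc : 9 / r ≤ c) (hT : 12 ≤ T)
    (h : T * a * b * c ≤ 4 * (a + b + c) ^ 2) (h1 : a ≤ b) (h2 : b ≤ a + c) (h3 : c ≤ a + b) : False := by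
  have h5 : Real.sqrt 5 < 3 := by
    rw [Real.sqrt_lt' (by norm_num)]
    norm_num
  have h50 : 0 ≤ Real.sqrt 5 := Real.sqrt_nonneg 5
  have hr0 : 0 < r := by rw [hr]; linarith
  have hr3 : 3 < 9 / r := by
    rw [lt_div_iff₀ hr0, hr]
    linarith
  exact kin_d (lt_of_lt_of_le hr3 ha) (lt_of_lt_of_le hr3 hc) hT h h1 h2 h3

end Pool.Agent.HSN
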