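import Pool.Agent.HSG.Nf

/-!
# HSN/Kio: inequalities

Numerical inequalities for `r = (3 + √5) / 2` (`1 / r = 3 - r`, `2.618 < r < 2.6181`).
-/

set_option autoImplicit false

noncomputable section

namespace Pool.Agent.HSN

open Pool.Agent.HSK Pool.Agent.HSG Matrix
open scoped MatrixGroups commutatorElement

private lemma Kio_r {r : ℝ} (hr : r = (3 + Real.sqrt 5) / 2) :
    r * r = 3 * r - 1 ∧ 2618 / 1000 < r ∧ r < 26181 / 10000 := by
  have h5 : Real.sqrt 5 * Real.sqrt 5 = 5 := Real.mul_self_sqrt (by norm_num)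
  have h0 : 0 ≤ Real.sqrt 5 := Real.sqrt_nonneg 5
  subst hr
  refine ⟨by nlinarith, ?_, ?_⟩
  · have : (2236 : ℝ) / 1000 < Real.sqrt 5 := by
      rw [Real.lt_sqrt (by norm_num)]; norm_num
    linarith
  · have : Real.sqrt 5 < (22362 : ℝ) / 10000 := by
      rw [Real.sqrt_lt' (by norm_num)]; norm_num
    linarith

private lemma Kio_inv {r : ℝ} (hr : r = (3 + Real.sqrt 5) / 2) : 1 / r = 3 - r := by
  obtain ⟨h1, h2, h3⟩ := Kio_r hr
  have h0 : r ≠ 0 := by linarith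
  field_simp
  linarith

private lemma Kio_nine {r a : ℝ} (hr : r = (3 + Real.sqrt 5) / 2) (ha : 9 / r ≤ a) :
    9 ≤ a * r ∧ 34371 / 10000 < a := by
  obtain ⟨h1, h2, h3⟩ := Kio_r hr
  have h4 := Kio_inv hr
  have h0 : 0 < r := by linarith
  refine ⟨(div_le_iff₀ h0).1 ha, ?_⟩
  have h5 : 9 / r = 9 * (1 / r) := by ring
  rw [h5, h4] at ha
  linarith

theorem kin3 {b r : ℝ} (hr : r = (3 + Real.sqrt 5) / 2) (hb : 9 / r ≤ b) : (1 + r / b + 4 / r) ^ 2 < 12 := by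
  obtain ⟨h1, h2, h3⟩ := Kio_r hr
  obtain ⟨h5, h6⟩ := Kio_nine hr hb
  have h0 : 0 < r := by linarith
  have hb0 : 0 < b := by linarith
  have h7 : r / b ≤ r * r / 9 := by
    rw [div_le_div_iff₀ hb0 (by norm_num)]
    nlinarith
  have h8 : 4 / r = 4 * (3 - r) := by
    rw [← Kio_inv hr]; ring
  have h9 : 0 < r / b := div_pos h0 hb0
  have h10 : 1 + r / b + 4 / r < 33 / 10 := by
    rw [h8]
    linarith
  have h11 : 0 < 1 + r / b + 4 / r := by positivity
  nlinarith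

theorem kin4 {a b r T : ℝ} (hr : r = (3 + Real.sqrt 5) / 2) (ha : 9 / r ≤ a) (hab : a ≤ b) (hb : b ≤ a + r) (hT : 12 ≤ T)
    (h : T * a * b * r ≤ 4 * (a + b + r) ^ 2) : False := by
  obtain ⟨h1, h2, h3⟩ := Kio_r hr
  obtain ⟨h5, h6⟩ := Kio_nine hr ha
  have h0 : 0 < r := by linarith
  have ha0 : 0 < a := by linarith
  have hb0 : 0 < b := by linarith
  have e1 : 0 ≤ (b - a) * ((a + r) ^ 2 - a * b) := by
    apply mul_nonneg (by linarith)
    have : a * b ≤ a * (a + r) := mul_le_mul_of_nonneg_left hb ha0.le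
    nlinarith [mul_pos ha0 h0, mul_pos h0 h0]
  have e2 : (a + b + r) ^ 2 * a ≤ b * (2 * a + r) ^ 2 := by nlinarith
  have e3 : 12 * (a * b * r) ≤ 4 * (a + b + r) ^ 2 := by
    have : 12 * (a * b * r) ≤ T * (a * b * r) :=
      mul_le_mul_of_nonneg_right hT (by positivity)
    linarith
  have e4 : 12 * (a * b * r) * a ≤ 4 * (b * (2 * a + r) ^ 2) := by
    have := mul_le_mul_of_nonneg_right e3 ha0.le
    linarith
  have e5 : b * (12 * a * a * r) ≤ b * (4 * (2 * a + r) ^ 2) := by linarith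
  have e6 : 12 * a * a * r ≤ 4 * (2 * a + r) ^ 2 := le_of_mul_le_mul_left e5 hb0
  have e7 : (3 * r - 4) * (a * a) ≤ 4 * a * r + r * r := by linarith
  have e8 : (3854 / 1000) * (a * a) ≤ (3 * r - 4) * (a * a) :=
    mul_le_mul_of_nonneg_right (by linarith) (by positivity)
  have e9 : 4 * a * r ≤ 4 * a * (26181 / 10000) :=
    mul_le_mul_of_nonneg_left h3.le (by positivity)
  nlinarith

theorem kin6 {a b r S D : ℝ} (hr : r = (3 + Real.sqrt 5) / 2) (ha : 9 / r ≤ a) (hb : 9 / r ≤ b) (hD : 0 < D) (hS : 12 ≤ S ^ 2) (hS0 : 0 ≤ S)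
    (hD2 : D ^ 2 = r) (h : S * D * a * b ≤ D ^ 2 * (a + b) + 4 * a * b) : False := by
  obtain ⟨h1, h2, h3⟩ := Kio_r hr
  obtain ⟨h5, h6⟩ := Kio_nine hr ha
  obtain ⟨h5', h6'⟩ := Kio_nine hr hb
  have h0 : 0 < r := by linarith
  have ha0 : 0 < a := by linarith
  have hb0 : 0 < b := by linarith
  have hab : 0 < a * b := mul_pos ha0 hb0
  have e1 : 9 * b ≤ a * r * b := mul_le_mul_of_nonneg_right h5 hb0.le
  have e2 : 9 * a ≤ b * r * a := mul_le_mul_of_nonneg_right h5' ha0.le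
  have e3 : r * (9 * (a + b)) ≤ r * (2 * r * (a * b)) :=
    mul_le_mul_of_nonneg_left (by linarith) h0.le
  rw [hD2] at h
  have e4 : (a * b) * (9 * (S * D)) ≤ (a * b) * (2 * (r * r) + 36) := by linarith
  have e5 : 9 * (S * D) ≤ 2 * (r * r) + 36 := le_of_mul_le_mul_left e4 hab
  have e6 : 9 * (S * D) ≤ 4971 / 100 := by linarith
  have e7 : 0 ≤ S * D := mul_nonneg hS0 hD.le
  have e8 : (S * D) ^ 2 = S ^ 2 * r := by rw [mul_pow, hD2]
  have e9 : 12 * r ≤ S ^ 2 * r := mul_le_mul_of_nonneg_right hS h0.le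
  nlinarith

theorem kin7 {a b c r S D : ℝ} (hr : r = (3 + Real.sqrt 5) / 2) (ha : 9 / r ≤ a) (hb : 9 / r ≤ b) (hD : 0 < D) (hS : 12 ≤ S ^ 2) (hS0 : 0 ≤ S)
    (hD2 : 9 / r ≤ D ^ 2) (h : S * D * a * b ≤ D ^ 2 * (a + b) + 4 * a * b) (h2 : a + b < c) (h3 : D ^ 2 * c = 4 * (a * b)) : False := by
  obtain ⟨h1, h2', h3'⟩ := Kio_r hr
  obtain ⟨h5, h6⟩ := Kio_nine hr ha
  obtain ⟨h5', h6'⟩ := Kio_nine hr hb
  obtain ⟨h7, h8⟩ := Kio_nine hr hD2
  have h0 : 0 < r := by linarith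
  have ha0 : 0 < a := by linarith
  have hb0 : 0 < b := by linarith
  have hab : 0 < a * b := mul_pos ha0 hb0
  have e1 : 9 * b ≤ a * r * b := mul_le_mul_of_nonneg_right h5 hb0.le
  have e2 : 9 * a ≤ b * r * a := mul_le_mul_of_nonneg_right h5' ha0.le
  obtain ⟨s, hs⟩ : ∃ s : ℝ, s = (a + b) / (a * b) := ⟨_, rfl⟩
  have hs1 : s * (a * b) = a + b := by rw [hs]; field_simp
  have hs0 : 0 < s := by rw [hs]; positivity
  have hs2 : 9 * s ≤ 2 * r := by
    have : (a * b) * (9 * s) ≤ (a * b) * (2 * r) := by linarith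
    exact le_of_mul_le_mul_left this hab
  obtain ⟨u, hu⟩ : ∃ u : ℝ, u = D ^ 2 := ⟨_, rfl⟩
  rw [← hu] at h h3 h7 h8
  have hu0 : 0 < u := by linarith
  have f1 : u * s < 4 := by
    have g1 : u * (a + b) < 4 * (a * b) := by
      rw [← h3]; exact mul_lt_mul_of_pos_left h2 hu0
    rw [← hs1] at g1
    have g2 : (a * b) * (u * s) < (a * b) * 4 := by linarith
    exact lt_of_mul_lt_mul_left g2 hab.le
  have f2 : S * D ≤ u * s + 4 := by
    have g1 : (a * b) * (S * D) ≤ (a * b) * (u * s + 4) := by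
      rw [← hs1] at h
      linarith
    exact le_of_mul_le_mul_left g1 hab
  have f3 : 0 ≤ S * D := mul_nonneg hS0 hD.le
  have f4 : 12 * u ≤ (u * s + 4) ^ 2 := by
    have g1 : (S * D) ^ 2 ≤ (u * s + 4) ^ 2 := pow_le_pow_left₀ f3 f2 2
    have g2 : (S * D) ^ 2 = S ^ 2 * u := by rw [mul_pow, hu]
    have g3 : 12 * u ≤ S ^ 2 * u := mul_le_mul_of_nonneg_right hS hu0.le
    linarith
  -- convexity in u between w = 9 (3 - r) and 4 / s
  obtain ⟨w, hw⟩ : ∃ w : ℝ, w = 9 * (3 - r) := ⟨_, rfl⟩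
  have hw1 : w * r = 9 := by rw [hw]; linarith
  have hwu : w ≤ u := by
    have : w * r ≤ u * r := by rw [hw1]; exact h7
    exact le_of_mul_le_mul_right this h0
  have hw2 : 34371 / 10000 < w := by rw [hw]; linarith
  have hw0 : 0 < w := by linarith
  have hws : w * s ≤ 2 := by
    have : w * (9 * s) ≤ w * (2 * r) := mul_le_mul_of_nonneg_left hs2 hw0.le
    linarith
  have k1 : 0 ≤ (u - w) * (4 - u * s) := mul_nonneg (by linarith) (by linarith)
  have k2 : 0 ≤ s * ((u - w) * (4 - u * s)) := mul_nonneg hs0.le k1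
  have k3 : (u * s) ^ 2 ≤ 4 * (u * s) - 4 * (w * s) + (w * s) * (u * s) := by linarith
  have k4 : (w * s) * (u * s) ≤ 2 * (u * s) :=
    mul_le_mul_of_nonneg_right hws (by positivity)
  have k5 : 12 * u ≤ 4 * (u * s) - 4 * (w * s) + (w * s) * (u * s) + 8 * (u * s) + 16 := by
    linarith
  -- the right side minus 12 u is linear in u with negative slope
  have k6 : 0 ≤ (u - w) * (12 - 14 * s) := mul_nonneg (by linarith) (by linarith)
  have k7 : (w * s) * ((u - w) * s) ≤ 2 * ((u - w) * s) :=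
    mul_le_mul_of_nonneg_right hws (mul_nonneg (by linarith) hs0.le)
  have k8 : (w * s) * (w * s) ≤ 2 * 2 := mul_le_mul hws hws (by positivity) (by norm_num)
  nlinarith

end Pool.Agent.HSN
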