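import Pool.Agent.HSN.Kph
import Pool.Agent.HSC.Ask

/-!
# HSN/Knf: the theorem in normal form

PROOF PLAN.  `NK.kmin` gives a pair; `τ' = ± τ` has `12 ≤ normSq τ'`.  Some element of `Δ` has `0 < normSq ≤ 3`: with `a, b, c, d` as in HSN/Kph: if `c ≤ a + b`: `kin1` (element `A` or `A * B`); otherwise `kin2` (`A` or `A * A`).  `NK.main` (HSC/Ask): the figure eight
alternative is the claim; otherwise `NH (cj (t p) Γ) (cj (t p) Δ) w κ g` with `κ ^ 2 = u φ ^ 2`, so `normSq κ = (3 + √5) / 2` (`normSq κ ^ 2 = normSq (κ ^ 2)`).  The pair `A' = T (-p) * A * T p`, `B'` is in the shifted group (`mem_shift`), with the same entries (`shift_c`) and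
`A' * A' * B' * B' = T (-p) * (-T τ') * T p = -T τ'`; or apply `NK.kmin` to the shifted group (`NK.shift`) and the conjugates of `a`, `b`.  `NH.kb_false`.
-/

set_option autoImplicit false

noncomputable section

namespace Pool.Agent.HSN

open Pool.Agent.HSK Pool.Agent.HSG Pool.Agent.HSC Matrix
open scoped MatrixGroups commutatorElement

variable {Γ Δ : Subgroup PSL(2, ℂ)} {w τ : ℂ}

private theorem knf_tri (X Y Z : ℂ) : Complex.normSq (X ^ 2 + Y ^ 2 - Z ^ 2) ≤
    (Complex.normSq X + Complex.normSq Y + Complex.normSq Z) ^ 2 := by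
  have h1 : ‖X ^ 2 + Y ^ 2 - Z ^ 2‖ ≤ ‖X‖ ^ 2 + ‖Y‖ ^ 2 + ‖Z‖ ^ 2 := by
    refine (norm_sub_le _ _).trans ?_
    rw [norm_pow]
    refine add_le_add_left ?_ _ |>.trans (le_refl _)
    refine (norm_add_le _ _).trans ?_
    rw [norm_pow, norm_pow]
  rw [Complex.normSq_eq_norm_sq, Complex.normSq_eq_norm_sq, Complex.normSq_eq_norm_sq, Complex.normSq_eq_norm_sq]
  exact pow_le_pow_left₀ (norm_nonneg _) h1 2

private theorem knf_two (X Z : ℂ) : Complex.normSq (X ^ 2 - Z ^ 2) ≤ (Complex.normSq X + Complex.normSq Z) ^ 2 := by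
  have h1 : ‖X ^ 2 - Z ^ 2‖ ≤ ‖X‖ ^ 2 + ‖Z‖ ^ 2 := by
    refine (norm_sub_le _ _).trans ?_
    rw [norm_pow, norm_pow]
  rw [Complex.normSq_eq_norm_sq, Complex.normSq_eq_norm_sq, Complex.normSq_eq_norm_sq]
  exact pow_le_pow_left₀ (norm_nonneg _) h1 2

/-- an element of `Δ` with a small entry -/
private theorem knf_small (h : NK Γ Δ w) {A B : SL(2, ℂ)} (hp : KT Γ τ A B) (hτ : 12 ≤ Complex.normSq τ)
    (h1 : Complex.normSq (A.1 1 0) ≤ Complex.normSq (B.1 1 0))
    (h3 : Complex.normSq (B.1 1 0) ^ 2 ≤ Complex.normSq (A.1 1 0 ^ 2 - (A * B).1 1 0 ^ 2)) :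
    ∃ A : SL(2, ℂ), cls A ∈ Δ ∧ A.1 1 0 ≠ 0 ∧ Complex.normSq (A.1 1 0) ≤ 3 := by
  have hτ0 : τ ≠ 0 := by
    rintro rfl
    rw [map_zero] at hτ
    norm_num at hτ
  have hAm : cls A ∈ Δ := h.le hp.a
  have hABm : cls (A * B) ∈ Δ := by
    rw [cls_mul]
    exact h.le (Γ.mul_mem hp.a hp.b)
  have hAAm : cls (A * A) ∈ Δ := by
    rw [cls_mul]
    exact h.le (Γ.mul_mem hp.a hp.a)
  obtain ⟨hX, hY, hZ, -⟩ := hp.rel h.tf hτ0
  obtain ⟨-, hW, hWZ, hsq⟩ := hp.sq h.tf hτ0
  have hm := hp.markov h.tf hτ0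
  have b1 : Complex.normSq (B.1 1 0) ≤ Complex.normSq (A.1 1 0) + Complex.normSq ((A * B).1 1 0) := by
    refine le_of_sq_le_sq (h3.trans (knf_two _ _)) ?_
    exact add_nonneg (Complex.normSq_nonneg _) (Complex.normSq_nonneg _)
  rcases le_or_gt (Complex.normSq ((A * B).1 1 0)) (Complex.normSq (A.1 1 0) + Complex.normSq (B.1 1 0)) with hc | hc
  · have e := congrArg Complex.normSq hm
    rw [map_mul, map_mul, map_mul, map_mul] at e
    have e2 : Complex.normSq (2 : ℂ) = 4 := by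
      rw [Complex.normSq_ofNat]
      norm_num
    rw [e2] at e
    have e3 : Complex.normSq τ * Complex.normSq (A.1 1 0) * Complex.normSq (B.1 1 0) * Complex.normSq ((A * B).1 1 0) ≤
        4 * (Complex.normSq (A.1 1 0) + Complex.normSq (B.1 1 0) + Complex.normSq ((A * B).1 1 0)) ^ 2 := by
      rw [e]
      exact mul_le_mul_of_nonneg_left (knf_tri _ _ _) (by norm_num)
    rcases kin1 (Complex.normSq_pos.2 hX) (Complex.normSq_pos.2 hY) (Complex.normSq_pos.2 hZ) hτ e3 h1 b1 hc with h4 | h4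
    · exact ⟨A, hAm, hX, h4⟩
    · exact ⟨A * B, hABm, hZ, h4⟩
  · have e := congrArg Complex.normSq hWZ
    rw [map_mul, map_mul, map_mul] at e
    have e2 : Complex.normSq (2 : ℂ) = 4 := by
      rw [Complex.normSq_ofNat]
      norm_num
    rw [e2, Complex.normSq_eq_norm_sq ((A * A).1 1 0)] at e
    have e3 : ‖τ‖ * ‖(A * A).1 1 0‖ * Complex.normSq (A.1 1 0) * Complex.normSq (B.1 1 0) ≤
        ‖(A * A).1 1 0‖ ^ 2 * (Complex.normSq (A.1 1 0) + Complex.normSq (B.1 1 0)) +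
          4 * Complex.normSq (A.1 1 0) * Complex.normSq (B.1 1 0) := by
      have e4 := congrArg norm hsq
      rw [norm_mul, norm_mul, norm_mul, norm_pow, norm_pow] at e4
      rw [Complex.normSq_eq_norm_sq, Complex.normSq_eq_norm_sq, e4]
      refine (norm_sub_le _ _).trans (add_le_add ?_ ?_)
      · rw [norm_mul, norm_pow]
        refine mul_le_mul_of_nonneg_left ?_ (by positivity)
        refine (norm_add_le _ _).trans ?_
        rw [norm_pow, norm_pow]
      · rw [norm_mul, norm_mul, norm_pow, norm_pow]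
        have e5 : ‖(4 : ℂ)‖ = 4 := by simp
        rw [e5]
    have hS : 12 ≤ ‖τ‖ ^ 2 := by
      rw [← Complex.normSq_eq_norm_sq]
      exact hτ
    rcases kin2 (Complex.normSq_pos.2 hX) (Complex.normSq_pos.2 hY) (norm_pos_iff.2 hW) hS (norm_nonneg _) e3 h1 hc e with h4 | h4
    · exact ⟨A, hAm, hX, h4⟩
    · refine ⟨A * A, hAAm, hW, ?_⟩
      rw [Complex.normSq_eq_norm_sq]
      exact h4

private theorem knf_c (p : ℂ) (B : SL(2, ℂ)) : (T (-p) * B * T p).1 1 0 = B.1 1 0 := by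
  have h := (shift_c (-p) B).1
  rwa [neg_neg] at h

/-- the conjugate pair -/
private theorem knf_shift {A B : SL(2, ℂ)} (hp : KT Γ τ A B) (p : ℂ) :
    KT (cj (t p) Γ) τ (T (-p) * A * T p) (T (-p) * B * T p) := by
  have hk : A * A * B * B = -(T τ) := by
    apply Subtype.ext
    rw [hp.k]
    rfl
  have key : ∀ D : SL(2, ℂ), cls D ∈ Γ → cls (T (-p) * D * T p) ∈ cj (t p) Γ := by
    intro D hD
    rw [mem_shift]
    have e : T p * (T (-p) * D * T p) * T (-p) = D := by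
      rw [T_neg]
      group
    rw [e]
    exact hD
  refine ⟨key A hp.a, key B hp.b, ?_, ?_⟩
  · have e1 : T (-p) * A * T p * (T (-p) * A * T p) * (T (-p) * B * T p) * (T (-p) * B * T p) =
        T (-p) * (A * A * B * B) * T p := by
      rw [T_neg]
      group
    have e2 : T (-p) * (-(T τ)) * T p = -(T τ) := by
      rw [mul_neg, neg_mul, ← T_add, ← T_add]
      congr 2
      ring
    rw [e1, hk, e2]
    rfl
  · intro e
    apply hp.nc
    have e1 : ∀ D : SL(2, ℂ), cls (T (-p) * D * T p) = (t p)⁻¹ * cls D * t p := by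
      intro D
      rw [T_neg, cls_mul, cls_mul, cls_inv]
      rfl
    rw [e1, e1] at e
    have e2 : cls A * cls B = t p * ((t p)⁻¹ * cls A * t p * ((t p)⁻¹ * cls B * t p)) * (t p)⁻¹ := by group
    have e3 : cls B * cls A = t p * ((t p)⁻¹ * cls B * t p * ((t p)⁻¹ * cls A * t p)) * (t p)⁻¹ := by group
    rw [e2, e3, e]

theorem NK.klein (h : NK Γ Δ w) {a b : PSL(2, ℂ)} (ha : a ∈ Γ) (hb : b ∈ Γ) (hτ : 12 ≤ Complex.normSq τ) (hc : a * b ≠ b * a)
    (hab : a * a * b * b = t τ) : ∃ p v : ℂ, v ^ 2 + v + 1 = 0 ∧ cj (t p) Γ = F8 v := by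
  have hτ0 : τ ≠ 0 := by
    rintro rfl
    rw [map_zero] at hτ
    norm_num at hτ
  obtain ⟨A, B, τ', hτ', hp, h1, h2, h3⟩ := NK.kmin h ha hb hτ0 hc hab
  have hτn : 12 ≤ Complex.normSq τ' := by
    rcases hτ' with rfl | rfl
    · exact hτ
    · rw [Complex.normSq_neg]
      exact hτ
  obtain ⟨p, hv | ⟨κ, g, u, hN, hu, hκ⟩⟩ := h.main (knf_small h hp hτn h1 h3)
  · obtain ⟨v, hv, hcj⟩ := hv
    exact ⟨p, v, hv, hcj⟩
  · exfalso
    have hr0 : (0 : ℝ) < (3 + Real.sqrt 5) / 2 := by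
      have := Real.sqrt_nonneg 5
      linarith
    have hun : Complex.normSq u = 1 := by
      have e : Complex.normSq u ^ 6 = 1 := by
        rw [← map_pow, hu, map_one]
      exact (pow_eq_one_iff_of_nonneg (Complex.normSq_nonneg _) (by norm_num)).1 e
    have hκn : Complex.normSq κ = (3 + Real.sqrt 5) / 2 := by
      have e := congrArg Complex.normSq hκ
      rw [map_mul, hun, one_mul, map_pow, Complex.normSq_ofReal, ← pow_two] at e
      exact (pow_left_inj₀ (Complex.normSq_nonneg _) hr0.le two_ne_zero).1 e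
    refine NH.kb_false hN hκn hτn (knf_shift hp p) ?_ ?_ ?_
    · rw [knf_c, knf_c]
      exact h1
    · have e : T (-p) * A * T p * (T (-p) * B * T p) = T (-p) * (A * B) * T p := by
        rw [T_neg]
        group
      rw [e, knf_c, knf_c, knf_c]
      exact h2
    · have e : T (-p) * A * T p * (T (-p) * B * T p) = T (-p) * (A * B) * T p := by
        rw [T_neg]
        group
      rw [e, knf_c, knf_c, knf_c]
      exact h3

end Pool.Agent.HSN
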