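import Pool.Agent.HSN.Kin
import Pool.Agent.HSN.Kio
import Pool.Agent.HSN.Kbm
import Pool.Agent.HSC.Fuk

/-!
# HSN/Kph: no Klein bottle pair in the dodecahedral case

`nh_near` is copied from HSG/Cas.
PROOF PLAN for `NH.kb_false`.  `r = normSq κ = (3 + √5) / 2`; `a, b, c, d` the `normSq` of `X, Y, Z, W` (`W = (A * A).1 1 0`).  Each of them is `r` or `≥ 9 / r`: otherwise `gap` gives `≥ 3` and `nh_near` (`r / 3 * v < 3`) gives `v = r` or `r ^ 2 ≤ v`, and `9 / r < r ^ 2`.
`v = r` means full: `pt ∈ Oz w` (`h.full`), also for the inverse.  From `KT.markov`: `12 a b c ≤ T a b c ≤ 4 (a + b + c) ^ 2` (`T = normSq τ`; triangle inequality), from `h2`, `h3` (hypotheses of minimality): `b ≤ a + c`, `a ≤ b + c`.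
Type 1, `c ≤ a + b`.  `a = b = r`: `Z = X Y (pt B - pt A⁻¹)` (`c_mul`), a nonzero Eisenstein integer times `X Y`: `c ≥ r ^ 2 > 2 r`.  `a = c = r`: `B = A⁻¹ * U`, `Y = X Z (pt A - pt U)` (`c_inv_mul`): `b ≥ r ^ 2 > 2 r ≥ a + c`.  `b = r` implies `a = r`.
`a = r`, `b, c ≥ 9 / r`: `x = X α`, `α = pt A - pt A⁻¹ ∈ Oz w` (`trace_pt`), `x Z = 2 Y`: `normSq α * r * c = 4 b ≤ 4 (r + c)`, so `normSq α < 3`, `= 1` (`oz_three`, `oz_one_le`); `W = x X = α X ^ 2`; `KT.sq`: `τ α X ^ 4 Y ^ 2 = α ^ 2 X ^ 4 (X ^ 2 + Y ^ 2) - 4 X ^ 2 Y ^ 2`, so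
`τ = α + α X ^ 2 / Y ^ 2 - 4 / (α X ^ 2)`, `‖τ‖ ≤ 1 + r / b + 4 / r`: `kin3`.  `c = r`, `a, b ≥ 9 / r`: `kin4`.  All `≥ 9 / r`: `kin5`.
Type 2, `a + b < c`; `d c = 4 a b` (`KT.sq`), `D = ‖W‖`, `‖τ‖ D a b ≤ D ^ 2 (a + b) + 4 a b` (`KT.sq`).  `a = b = r`: `W = α X ^ 2`, `d = normSq α r ^ 2 ≥ r ^ 2` and `d < 2 r`.  `a = r`, `b ≥ 9 / r`: `d = normSq α * r ^ 2`, `d (a + b) < 4 a b`, so `normSq α * r < 4`, `normSq α = 1`, `kin3` as before.
`a, b ≥ 9 / r`: `d = r`: `kin6`; `d ≥ 9 / r`: `kin7`.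
-/

set_option autoImplicit false

noncomputable section

namespace Pool.Agent.HSN

open Pool.Agent.HSK Pool.Agent.HSG Pool.Agent.HSC Matrix
open scoped MatrixGroups commutatorElement

variable {Γ Δ : Subgroup PSL(2, ℂ)} {w κ τ : ℂ} {g : SL(2, ℂ)}

theorem nh_near (h : NH Γ Δ w κ g) {D : SL(2, ℂ)} (hD : cls D ∈ Δ) (h0 : D.1 1 0 ≠ 0)
    (hc : Complex.normSq κ * (1 / 3) * Complex.normSq (D.1 1 0) < 3) :
    Complex.normSq (D.1 1 0) = Complex.normSq κ ∨ Complex.normSq κ ^ 2 ≤ Complex.normSq (D.1 1 0) := by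
  obtain ⟨β, hβ, hn⟩ := oz_near h.nf.w2 (pt D)
  by_cases he : pt D = β
  · left
    exact h.conv hD h0 (he ▸ hβ)
  · right
    have hyb : pt D - β ≠ 0 := sub_ne_zero.2 he
    have hM : cls (g * (T (-β) * D)) ∈ Δ := by
      rw [cls_mul, cls_mul]
      exact Δ.mul_mem h.gm (Δ.mul_mem (h.nf.t_mem (oz_neg hβ)) hD)
    have hpD : D.1 0 0 = pt D * D.1 1 0 := by
      unfold pt
      rw [div_mul_cancel₀ _ h0]
    have e10 : (g * (T (-β) * D)).1 1 0 = κ * ((pt D - β) * D.1 1 0) := by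
      rw [Matrix.SpecialLinearGroup.coe_mul, Matrix.mul_apply, Fin.sum_univ_two, T_mul_coe, h.gc]
      simp only [Matrix.of_apply, Matrix.cons_val', Matrix.cons_val_zero, Matrix.cons_val_one, Matrix.cons_val_fin_one]
      rw [hpD]
      ring
    have e00 : (g * (T (-β) * D)).1 0 0 = -κ⁻¹ * D.1 1 0 := by
      rw [Matrix.SpecialLinearGroup.coe_mul, Matrix.mul_apply, Fin.sum_univ_two, T_mul_coe, h.gc]
      simp only [Matrix.of_apply, Matrix.cons_val', Matrix.cons_val_zero, Matrix.cons_val_one, Matrix.cons_val_fin_one]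
      ring
    have hne : (g * (T (-β) * D)).1 1 0 ≠ 0 := by
      rw [e10]
      exact mul_ne_zero h.k0 (mul_ne_zero hyb h0)
    have hnorm : Complex.normSq ((g * (T (-β) * D)).1 1 0) =
        Complex.normSq κ * (Complex.normSq (pt D - β) * Complex.normSq (D.1 1 0)) := by
      rw [e10, Complex.normSq_mul, Complex.normSq_mul]
    have hr : 0 < Complex.normSq κ := Complex.normSq_pos.2 h.k0
    have hcp : 0 < Complex.normSq (D.1 1 0) := Complex.normSq_pos.2 h0
    have hyp : 0 < Complex.normSq (pt D - β) := Complex.normSq_pos.2 hyb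
    rcases h.gap hM hne with h1 | h1
    · have h2 := h.full _ hM h1
      have h3 : pt (g * (T (-β) * D)) ≠ 0 := by
        unfold pt
        rw [e00]
        exact div_ne_zero (mul_ne_zero (neg_ne_zero.2 (inv_ne_zero h.k0)) h0) hne
      have h4 := oz_one_le h.nf.w2 h2 h3
      have h5 : Complex.normSq (pt (g * (T (-β) * D))) * (Complex.normSq κ ^ 2 * Complex.normSq (pt D - β)) = 1 := by
        have e5 : pt (g * (T (-β) * D)) = (g * (T (-β) * D)).1 0 0 / (g * (T (-β) * D)).1 1 0 := rfl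
        rw [e5, e00, Complex.normSq_div, hnorm, Complex.normSq_mul, Complex.normSq_neg, Complex.normSq_inv]
        field_simp
      rw [hnorm] at h1
      have h6 : Complex.normSq (pt D - β) * Complex.normSq (D.1 1 0) = 1 := by
        have h7 : Complex.normSq κ * (Complex.normSq (pt D - β) * Complex.normSq (D.1 1 0)) = Complex.normSq κ * 1 := by
          rw [h1, mul_one]
        exact mul_left_cancel₀ hr.ne' h7
      have h8 : Complex.normSq κ ^ 2 * Complex.normSq (pt D - β) ≤ 1 := by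
        rw [← h5]
        exact le_mul_of_one_le_left (by positivity) h4
      calc Complex.normSq κ ^ 2 = Complex.normSq κ ^ 2 * Complex.normSq (pt D - β) * Complex.normSq (D.1 1 0) := by
            rw [mul_assoc, h6, mul_one]
        _ ≤ 1 * Complex.normSq (D.1 1 0) := mul_le_mul_of_nonneg_right h8 hcp.le
        _ = Complex.normSq (D.1 1 0) := one_mul _
    · exfalso
      rw [hnorm] at h1
      have h2 : Complex.normSq (pt D - β) * Complex.normSq (D.1 1 0) ≤ 1 / 3 * Complex.normSq (D.1 1 0) :=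
        mul_le_mul_of_nonneg_right hn hcp.le
      have h3 := mul_le_mul_of_nonneg_left h2 hr.le
      linarith

private theorem kph_r {r : ℝ} (hr : r = (3 + Real.sqrt 5) / 2) :
    r * r = 3 * r - 1 ∧ 2618 / 1000 < r ∧ r < 26181 / 10000 := by
  have h5 : Real.sqrt 5 * Real.sqrt 5 = 5 := Real.mul_self_sqrt (by norm_num)
  have h0 : 0 ≤ Real.sqrt 5 := Real.sqrt_nonneg 5
  subst hr
  refine ⟨by nlinarith, ?_, ?_⟩
  · have : (2236 : ℝ) / 1000 < Real.sqrt 5 := by
      rw [Real.lt_sqrt (by norm_num)]; norm_num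
    linarith
  · have : Real.sqrt 5 < (22362 : ℝ) / 10000 := by
      rw [Real.sqrt_lt' (by norm_num)]; norm_num
    linarith

private theorem kph_nine {r a : ℝ} (hr : r = (3 + Real.sqrt 5) / 2) (ha : 9 / r ≤ a) : 9 ≤ a * r ∧ 343 / 100 < a := by
  obtain ⟨h1, h2, h3⟩ := kph_r hr
  have h0 : 0 < r := by linarith
  have h4 : 9 ≤ a * r := (div_le_iff₀ h0).1 ha
  refine ⟨h4, ?_⟩
  by_contra hcon
  rw [not_lt] at hcon
  have h5 : a * r ≤ 343 / 100 * r := mul_le_mul_of_nonneg_right hcon h0.le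
  linarith

private theorem kph_dich (h : NH Γ Δ w κ g) (hr : Complex.normSq κ = (3 + Real.sqrt 5) / 2) {D : SL(2, ℂ)}
    (hD : cls D ∈ Δ) (h0 : D.1 1 0 ≠ 0) :
    Complex.normSq (D.1 1 0) = Complex.normSq κ ∨ 9 / Complex.normSq κ ≤ Complex.normSq (D.1 1 0) := by
  obtain ⟨h1, h2, h3⟩ := kph_r hr
  have hk : 0 < Complex.normSq κ := by linarith
  by_contra hcon
  rw [not_or, not_le] at hcon
  obtain ⟨hne, hlt⟩ := hcon
  rw [lt_div_iff₀ hk] at hlt
  rcases nh_near h hD h0 (by linarith) with h4 | h4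
  · exact hne h4
  · have h5 := mul_le_mul_of_nonneg_right h4 hk.le
    have h6 : Complex.normSq κ ^ 2 * Complex.normSq κ = 8 * Complex.normSq κ - 3 := by
      have e : Complex.normSq κ ^ 2 * Complex.normSq κ = (Complex.normSq κ * Complex.normSq κ) * Complex.normSq κ := by ring
      rw [e, h1]
      linear_combination 3 * h1
    linarith

private theorem kph_fin {X Y τ α : ℂ} {r : ℝ} (hr : r = (3 + Real.sqrt 5) / 2) (hX : Complex.normSq X = r)
    (hb : 9 / r ≤ Complex.normSq Y) (hα : Complex.normSq α = 1) (hτ : 12 ≤ Complex.normSq τ)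
    (e : τ * (α * X ^ 2) * X ^ 2 * Y ^ 2 = (α * X ^ 2) ^ 2 * (X ^ 2 + Y ^ 2) - 4 * X ^ 2 * Y ^ 2) : False := by
  obtain ⟨h1, h2, h3⟩ := kph_r hr
  obtain ⟨h4, h5⟩ := kph_nine hr hb
  have hX0 : X ≠ 0 := Complex.normSq_pos.1 (by rw [hX]; linarith)
  have hY0 : Y ≠ 0 := Complex.normSq_pos.1 (by linarith)
  have hα0 : α ≠ 0 := Complex.normSq_pos.1 (by rw [hα]; norm_num)
  have nX : ‖X‖ ^ 2 = r := by rw [← Complex.normSq_eq_norm_sq, hX]
  have nY : ‖Y‖ ^ 2 = Complex.normSq Y := by rw [← Complex.normSq_eq_norm_sq]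
  have nα : ‖α‖ = 1 := by
    have h6 : ‖α‖ ^ 2 = 1 := by rw [← Complex.normSq_eq_norm_sq, hα]
    exact (pow_eq_one_iff_of_nonneg (norm_nonneg α) two_ne_zero).1 h6
  have hτe : τ = α + α * X ^ 2 / Y ^ 2 - 4 / (α * X ^ 2) := by
    have hne : (α * X ^ 2) * X ^ 2 * Y ^ 2 ≠ 0 :=
      mul_ne_zero (mul_ne_zero (mul_ne_zero hα0 (pow_ne_zero 2 hX0)) (pow_ne_zero 2 hX0)) (pow_ne_zero 2 hY0)
    have h7 : τ * ((α * X ^ 2) * X ^ 2 * Y ^ 2) = (α + α * X ^ 2 / Y ^ 2 - 4 / (α * X ^ 2)) * ((α * X ^ 2) * X ^ 2 * Y ^ 2) := by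
      have h8 : (α + α * X ^ 2 / Y ^ 2 - 4 / (α * X ^ 2)) * ((α * X ^ 2) * X ^ 2 * Y ^ 2) =
          (α * X ^ 2) ^ 2 * (X ^ 2 + Y ^ 2) - 4 * X ^ 2 * Y ^ 2 := by
        field_simp
        ring
      rw [h8, ← e]
      ring
    exact mul_right_cancel₀ hne h7
  have h8 : ‖τ‖ ≤ 1 + r / Complex.normSq Y + 4 / r := by
    rw [hτe]
    refine (norm_sub_le _ _).trans ?_
    refine add_le_add ((norm_add_le _ _).trans ?_) ?_
    · rw [nα, norm_div, norm_mul, norm_pow, norm_pow, nα, nX, nY, one_mul]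
    · rw [norm_div, norm_mul, norm_pow, nα, nX, one_mul]
      norm_num
  have h9 := kin3 hr hb
  have h10 : ‖τ‖ ^ 2 ≤ (1 + r / Complex.normSq Y + 4 / r) ^ 2 := pow_le_pow_left₀ (norm_nonneg τ) h8 2
  rw [← Complex.normSq_eq_norm_sq] at h10
  linarith

private theorem kph_tri (X Y Z τ : ℂ) (e : τ * X * Y * Z = 2 * (X ^ 2 + Y ^ 2 - Z ^ 2)) :
    Complex.normSq τ * Complex.normSq X * Complex.normSq Y * Complex.normSq Z ≤
      4 * (Complex.normSq X + Complex.normSq Y + Complex.normSq Z) ^ 2 := by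
  have h1 : ‖X ^ 2 + Y ^ 2 - Z ^ 2‖ ≤ Complex.normSq X + Complex.normSq Y + Complex.normSq Z := by
    refine (norm_sub_le _ _).trans (add_le_add ((norm_add_le _ _).trans (add_le_add ?_ ?_)) ?_)
    · rw [norm_pow, ← Complex.normSq_eq_norm_sq]
    · rw [norm_pow, ← Complex.normSq_eq_norm_sq]
    · rw [norm_pow, ← Complex.normSq_eq_norm_sq]
  have h2 : ‖X ^ 2 + Y ^ 2 - Z ^ 2‖ ^ 2 ≤ (Complex.normSq X + Complex.normSq Y + Complex.normSq Z) ^ 2 :=
    pow_le_pow_left₀ (norm_nonneg _) h1 2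
  have h3 : Complex.normSq (τ * X * Y * Z) = 4 * ‖X ^ 2 + Y ^ 2 - Z ^ 2‖ ^ 2 := by
    rw [e, Complex.normSq_mul, Complex.normSq_eq_norm_sq (X ^ 2 + Y ^ 2 - Z ^ 2)]
    norm_num
  rw [Complex.normSq_mul, Complex.normSq_mul, Complex.normSq_mul] at h3
  rw [h3]
  linarith

private theorem kph_sub {X Z : ℂ} {b : ℝ} (h : b ^ 2 ≤ Complex.normSq (X ^ 2 - Z ^ 2)) :
    b ≤ Complex.normSq X + Complex.normSq Z := by
  have h1 : ‖X ^ 2 - Z ^ 2‖ ≤ Complex.normSq X + Complex.normSq Z := by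
    refine (norm_sub_le _ _).trans (add_le_add ?_ ?_)
    · rw [norm_pow, ← Complex.normSq_eq_norm_sq]
    · rw [norm_pow, ← Complex.normSq_eq_norm_sq]
  rw [Complex.normSq_eq_norm_sq] at h
  exact (le_of_sq_le_sq h (norm_nonneg _)).trans h1

private theorem kph_W {X Y W τ : ℂ} (e : τ * W * X ^ 2 * Y ^ 2 = W ^ 2 * (X ^ 2 + Y ^ 2) - 4 * X ^ 2 * Y ^ 2) :
    ‖τ‖ * ‖W‖ * Complex.normSq X * Complex.normSq Y ≤
      ‖W‖ ^ 2 * (Complex.normSq X + Complex.normSq Y) + 4 * Complex.normSq X * Complex.normSq Y := by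
  have h1 : ‖τ * W * X ^ 2 * Y ^ 2‖ = ‖τ‖ * ‖W‖ * Complex.normSq X * Complex.normSq Y := by
    rw [norm_mul, norm_mul, norm_mul, norm_pow, norm_pow, Complex.normSq_eq_norm_sq, Complex.normSq_eq_norm_sq]
  rw [← h1, e]
  refine (norm_sub_le _ _).trans (add_le_add ?_ ?_)
  · rw [norm_mul, norm_pow]
    refine mul_le_mul_of_nonneg_left ((norm_add_le _ _).trans (add_le_add ?_ ?_)) (by positivity)
    · rw [norm_pow, ← Complex.normSq_eq_norm_sq]
    · rw [norm_pow, ← Complex.normSq_eq_norm_sq]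
  · rw [norm_mul, norm_mul, norm_pow, norm_pow, Complex.normSq_eq_norm_sq, Complex.normSq_eq_norm_sq]
    norm_num

private theorem kph_full (h : NH Γ Δ w κ g) {D : SL(2, ℂ)} (hD : cls D ∈ Δ) (he : Complex.normSq (D.1 1 0) = Complex.normSq κ) :
    pt D ∈ Oz w ∧ pt D⁻¹ ∈ Oz w := by
  refine ⟨h.full _ hD he, h.full _ ?_ ?_⟩
  · rw [cls_inv]
    exact Δ.inv_mem hD
  · rw [nf_i10, Complex.normSq_neg]
    exact he

theorem NH.kb_false (h : NH Γ Δ w κ g) (hr : Complex.normSq κ = (3 + Real.sqrt 5) / 2) (hτ : 12 ≤ Complex.normSq τ) {A B : SL(2, ℂ)}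
    (hp : KT Γ τ A B) (h1 : Complex.normSq (A.1 1 0) ≤ Complex.normSq (B.1 1 0))
    (h2 : Complex.normSq (A.1 1 0) ^ 2 ≤ Complex.normSq (B.1 1 0 ^ 2 - (A * B).1 1 0 ^ 2))
    (h3 : Complex.normSq (B.1 1 0) ^ 2 ≤ Complex.normSq (A.1 1 0 ^ 2 - (A * B).1 1 0 ^ 2)) : False := by
  have hτ0 : τ ≠ 0 := Complex.normSq_pos.1 (by linarith)
  have tf := h.nf.tf
  obtain ⟨hX, hY, hZ, e1, e2, e3, e4⟩ := hp.rel tf hτ0
  have m := hp.markov tf hτ0
  obtain ⟨s1, s2, s3, s4⟩ := hp.sq tf hτ0
  have hx := tr_ne tf hp.a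
  have hA : cls A ∈ Δ := h.nf.le hp.a
  have hB : cls B ∈ Δ := h.nf.le hp.b
  have hAB : cls (A * B) ∈ Δ := by
    rw [cls_mul]
    exact Δ.mul_mem hA hB
  have hAA : cls (A * A) ∈ Δ := by
    rw [cls_mul]
    exact Δ.mul_mem hA hA
  have dA := kph_dich h hr hA hX
  have dB := kph_dich h hr hB hY
  have dC := kph_dich h hr hAB hZ
  have dW := kph_dich h hr hAA s2
  have tri := kph_tri _ _ _ _ m
  have hb := kph_sub h3
  have hW := kph_W s4
  have hdc : Complex.normSq ((A * A).1 1 0) * Complex.normSq ((A * B).1 1 0) =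
      4 * (Complex.normSq (A.1 1 0) * Complex.normSq (B.1 1 0)) := by
    rw [← Complex.normSq_mul, s3, Complex.normSq_mul, Complex.normSq_mul]
    norm_num
  have hxc : Complex.normSq A.1.trace * Complex.normSq ((A * B).1 1 0) = 4 * Complex.normSq (B.1 1 0) := by
    rw [← Complex.normSq_mul, e3, Complex.normSq_mul]
    norm_num
  obtain ⟨k1, k2, k3⟩ := kph_r hr
  have hκ : 0 < Complex.normSq κ := by linarith
  have ha0 : 0 < Complex.normSq (A.1 1 0) := Complex.normSq_pos.2 hX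
  have hb0 : 0 < Complex.normSq (B.1 1 0) := Complex.normSq_pos.2 hY
  have hc0 : 0 < Complex.normSq ((A * B).1 1 0) := Complex.normSq_pos.2 hZ
  -- the case `a = r`, `b ≥ 9 / r`, `normSq α < 3`
  have key : Complex.normSq (A.1 1 0) = Complex.normSq κ → 9 / Complex.normSq κ ≤ Complex.normSq (B.1 1 0) →
      Complex.normSq (pt A - pt A⁻¹) < 3 → False := by
    intro ea eb hlt
    obtain ⟨f1, f2⟩ := kph_full h hA ea
    have hα : pt A - pt A⁻¹ ∈ Oz w := oz_sub f1 f2
    have ht := trace_pt hX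
    have hα0 : pt A - pt A⁻¹ ≠ 0 := by
      intro h0
      rw [h0, mul_zero] at ht
      exact hx ht
    have hα1 : Complex.normSq (pt A - pt A⁻¹) = 1 := by
      have g1 := oz_one_le h.nf.w2 hα hα0
      by_contra hne
      have g2 := oz_three h.nf.w2 hα (lt_of_le_of_ne g1 (Ne.symm hne))
      linarith
    have hWe : (A * A).1 1 0 = (pt A - pt A⁻¹) * A.1 1 0 ^ 2 := by
      rw [s1, ht]
      ring
    rw [hWe] at s4
    exact kph_fin hr ea eb hα1 hτ s4
  -- `b = r` gives `a = r`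
  have hba : Complex.normSq (B.1 1 0) = Complex.normSq κ → Complex.normSq (A.1 1 0) = Complex.normSq κ := by
    intro eb
    rcases dA with ea | ea
    · exact ea
    · have := (kph_nine hr ea).2
      linarith
  rcases le_or_gt (Complex.normSq ((A * B).1 1 0)) (Complex.normSq (A.1 1 0) + Complex.normSq (B.1 1 0)) with t1 | t2
  · -- type 1
    rcases dA with ea | ea
    · rcases dB with eb | eb
      · obtain ⟨f1, f2⟩ := kph_full h hA ea
        obtain ⟨f3, f4⟩ := kph_full h hB eb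
        have hz := c_mul hX hY
        have hne : pt B - pt A⁻¹ ≠ 0 := by
          intro h0
          rw [h0, mul_zero] at hz
          exact hZ hz
        have g1 := oz_one_le h.nf.w2 (oz_sub f3 f2) hne
        have g2 := congrArg Complex.normSq hz
        rw [Complex.normSq_mul, Complex.normSq_mul, ea, eb] at g2
        rw [g2, ea, eb] at t1
        have g3 : Complex.normSq κ * Complex.normSq κ * 1 ≤ Complex.normSq κ * Complex.normSq κ * Complex.normSq (pt B - pt A⁻¹) :=
          mul_le_mul_of_nonneg_left g1 (by positivity)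
        linarith
      · rcases dC with ec | ec
        · obtain ⟨f1, f2⟩ := kph_full h hA ea
          obtain ⟨f3, f4⟩ := kph_full h hAB ec
          have hz := c_inv_mul hX hZ
          have hz0 : A⁻¹ * (A * B) = B := by group
          rw [hz0] at hz
          have hne : pt A - pt (A * B) ≠ 0 := by
            intro h0
            rw [h0, mul_zero] at hz
            exact hY hz
          have g1 := oz_one_le h.nf.w2 (oz_sub f1 f3) hne
          have g2 := congrArg Complex.normSq hz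
          rw [Complex.normSq_mul, Complex.normSq_mul, ea, ec] at g2
          rw [g2, ea, ec] at hb
          have g3 : Complex.normSq κ * Complex.normSq κ * 1 ≤ Complex.normSq κ * Complex.normSq κ * Complex.normSq (pt A - pt (A * B)) :=
            mul_le_mul_of_nonneg_left g1 (by positivity)
          linarith
        · refine key ea eb ?_
          have ht := congrArg Complex.normSq (trace_pt hX)
          rw [Complex.normSq_mul, ea] at ht
          rw [ht] at hxc
          rw [ea] at hb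
          obtain ⟨g1, g2⟩ := kph_nine hr ec
          generalize Complex.normSq (pt A - pt A⁻¹) = n at *
          generalize Complex.normSq ((A * B).1 1 0) = c at *
          generalize Complex.normSq κ = r at *
          by_contra hn
          rw [not_lt] at hn
          have g3 : r * c * 3 ≤ r * c * n := mul_le_mul_of_nonneg_left hn (by positivity)
          nlinarith
    · rcases dB with eb | eb
      · exact absurd (hba eb) (by
          intro h0
          have := (kph_nine hr ea).2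
          linarith)
      · rcases dC with ec | ec
        · rw [ec] at tri hb
          exact kin4 hr ea h1 hb hτ tri
        · exact kin5 hr ea eb ec hτ tri h1 hb t1
  · -- type 2
    have hD0 : 0 < ‖(A * A).1 1 0‖ := norm_pos_iff.2 s2
    have hS : 12 ≤ ‖τ‖ ^ 2 := by
      rw [← Complex.normSq_eq_norm_sq]
      exact hτ
    have hDn : ‖(A * A).1 1 0‖ ^ 2 = Complex.normSq ((A * A).1 1 0) := (Complex.normSq_eq_norm_sq _).symm
    have hd0 : 0 < Complex.normSq ((A * A).1 1 0) := Complex.normSq_pos.2 s2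
    have hlt : Complex.normSq ((A * A).1 1 0) * (Complex.normSq (A.1 1 0) + Complex.normSq (B.1 1 0)) <
        4 * (Complex.normSq (A.1 1 0) * Complex.normSq (B.1 1 0)) := by
      rw [← hdc]
      exact mul_lt_mul_of_pos_left t2 hd0
    rcases dA with ea | ea
    · -- `d = normSq α * r ^ 2`
      have hd : Complex.normSq ((A * A).1 1 0) = Complex.normSq κ * Complex.normSq κ * Complex.normSq (pt A - pt A⁻¹) := by
        rw [s1, trace_pt hX, Complex.normSq_mul, Complex.normSq_mul, ea]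
        ring
      rcases dB with eb | eb
      · obtain ⟨f1, f2⟩ := kph_full h hA ea
        have hα0 : pt A - pt A⁻¹ ≠ 0 := by
          intro h0
          have ht := trace_pt hX
          rw [h0, mul_zero] at ht
          exact hx ht
        have g1 := oz_one_le h.nf.w2 (oz_sub f1 f2) hα0
        rw [hd, ea, eb] at hlt
        generalize Complex.normSq (pt A - pt A⁻¹) = n at *
        generalize Complex.normSq κ = r at *
        have g3 : r * r * r * 1 ≤ r * r * r * n := mul_le_mul_of_nonneg_left g1 (by positivity)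
        nlinarith
      · refine key ea eb ?_
        rw [hd, ea] at hlt
        generalize Complex.normSq (pt A - pt A⁻¹) = n at *
        generalize Complex.normSq (B.1 1 0) = b at *
        generalize Complex.normSq κ = r at *
        by_contra hn
        rw [not_lt] at hn
        have g3 : r * r * (r + b) * 3 ≤ r * r * (r + b) * n := mul_le_mul_of_nonneg_left hn (by positivity)
        have g4 : 0 < r * b := by positivity
        nlinarith
    · rcases dB with eb | eb
      · exact absurd (hba eb) (by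
          intro h0
          have := (kph_nine hr ea).2
          linarith)
      · rcases dW with ed | ed
        · exact kin6 hr ea eb hD0 hS (norm_nonneg τ) (by rw [hDn, ed]) hW
        · exact kin7 hr ea eb hD0 hS (norm_nonneg τ) (by rw [hDn]; exact ed) hW t2 (by rw [hDn]; exact hdc)

end Pool.Agent.HSN
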